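import Mathlib

set_option autoImplicit false

namespace Pool.Agent.H256Z.TB

open ComplexConjugate

noncomputable def lam (x y X : ℝ) : ℝ :=
  ⌊X⌋ + (if Int.fract X ≤ x then y * (Int.fract X / x) else y + (1 - y) * ((Int.fract X - x) / (1 - x)))

theorem lam_lo {x : ℝ} (hx0 : 0 < x) (hx1 : x < 1) (y : ℝ) (n : ℤ) (s : ℝ) (h0 : 0 ≤ s) (h1 : s ≤ 1) :
    lam x y (n + x * s) = n + y * s := by
  have a0 : 0 ≤ x * s := by positivity
  have a1 : x * s ≤ x := by nlinarith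
  have hf : ⌊(n : ℝ) + x * s⌋ = n := by
    rw [Int.floor_eq_iff]; constructor <;> linarith
  have hr : Int.fract ((n : ℝ) + x * s) = x * s := by
    rw [Int.fract, hf]; ring
  rw [lam, hf, hr, if_pos a1]
  field_simp

theorem lam_hi {x : ℝ} (hx0 : 0 < x) (hx1 : x < 1) (y : ℝ) (n : ℤ) (s : ℝ) (h0 : 0 ≤ s) (h1 : s ≤ 1) :
    lam x y (n + (x + (1 - x) * s)) = n + (y + (1 - y) * s) := by
  rcases h1.lt_or_eq with h1 | rfl
  · have a0 : 0 ≤ (1 - x) * s := mul_nonneg (by linarith) h0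
    have a1 : (1 - x) * s < 1 - x := by nlinarith
    have hf : ⌊(n : ℝ) + (x + (1 - x) * s)⌋ = n := by
      rw [Int.floor_eq_iff]; constructor <;> linarith
    have hr : Int.fract ((n : ℝ) + (x + (1 - x) * s)) = x + (1 - x) * s := by
      rw [Int.fract, hf]; ring
    rw [lam, hf, hr]
    split_ifs with h
    · have : s = 0 := by nlinarith
      subst this
      field_simp
      ring
    · have : (1 - x) ≠ 0 := by linarith
      field_simp
      ring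
  · have := lam_lo hx0 hx1 y (n + 1) 0 le_rfl zero_le_one
    push_cast at this
    convert this using 1
    · congr 1; ring
    · ring

theorem lam_cases {x : ℝ} (hx0 : 0 < x) (hx1 : x < 1) (ξ : ℝ) (h0 : 0 ≤ ξ) (h1 : ξ ≤ 1) :
    (∃ s, 0 ≤ s ∧ s ≤ 1 ∧ ξ = x * s) ∨ (∃ s, 0 ≤ s ∧ s ≤ 1 ∧ ξ = x + (1 - x) * s) := by
  by_cases h : ξ ≤ x
  · left
    refine ⟨ξ / x, by positivity, (div_le_one hx0).mpr h, by field_simp⟩
  · right
    have : 0 < 1 - x := by linarith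
    refine ⟨(ξ - x) / (1 - x), div_nonneg (by linarith) this.le, (div_le_one this).mpr (by linarith),
      by field_simp; ring⟩

theorem lam_add {x : ℝ} (hx0 : 0 < x) (hx1 : x < 1) (y : ℝ) (n : ℤ) (ξ : ℝ) (h0 : 0 ≤ ξ) (h1 : ξ ≤ 1) :
    lam x y (n + ξ) = n + lam x y ξ ∧ lam x y (n + x - ξ) = n + y - lam x y ξ := by
  rcases lam_cases hx0 hx1 ξ h0 h1 with ⟨s, s0, s1, rfl⟩ | ⟨s, s0, s1, rfl⟩
  · have a := lam_lo hx0 hx1 y 0 s s0 s1
    have b := lam_lo hx0 hx1 y n s s0 s1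
    have c := lam_lo hx0 hx1 y n (1 - s) (by linarith) (by linarith)
    simp only [Int.cast_zero, zero_add] at a
    rw [a, b]
    refine ⟨rfl, ?_⟩
    have e : (n : ℝ) + x - x * s = n + x * (1 - s) := by ring
    rw [e, c]; ring
  · have a := lam_hi hx0 hx1 y 0 s s0 s1
    have b := lam_hi hx0 hx1 y n s s0 s1
    have c := lam_hi hx0 hx1 y (n - 1) (1 - s) (by linarith) (by linarith)
    simp only [Int.cast_zero, zero_add] at a
    rw [a, b]
    refine ⟨rfl, ?_⟩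
    have e : (n : ℝ) + x - (x + (1 - x) * s) = ((n - 1 : ℤ) : ℝ) + (x + (1 - x) * (1 - s)) := by
      push_cast; ring
    rw [e, c]; push_cast; ring

theorem lam_core {x y : ℝ} (hx0 : 0 < x) (hx1 : x < 1) (hy0 : 0 < y) (hy1 : y < 1)
    (a b c d : ℝ) (ha : 0 ≤ a) (hb : 0 ≤ b) (hc : 0 ≤ c) (hd : 0 ≤ d) (hs : a + b + c + d = 1) :
    (0 ≤ x * (b + d) + c ∧ x * (b + d) + c ≤ 1) ∧
    (0 ≤ lam x y (x * (b + d) + c) - (y * (b + d) - d) ∧
      lam x y (x * (b + d) + c) - (y * (b + d) - d) ≤ 1) ∧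
    (0 ≤ (y * (b + d) - d) + lam x (1 - y) (x * (b + d) + c) ∧
      (y * (b + d) - d) + lam x (1 - y) (x * (b + d) + c) ≤ 1) := by
  have h0 : 0 ≤ x * (b + d) + c := by positivity
  have h1 : x * (b + d) + c ≤ 1 := by nlinarith
  refine ⟨⟨h0, h1⟩, ?_⟩
  rcases lam_cases hx0 hx1 _ h0 h1 with ⟨s, s0, s1, hs'⟩ | ⟨s, s0, s1, hs'⟩
  · have a1 := lam_lo hx0 hx1 y 0 s s0 s1
    have a2 := lam_lo hx0 hx1 (1 - y) 0 s s0 s1
    simp only [Int.cast_zero, zero_add] at a1 a2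
    rw [hs', a1, a2]
    have hge : b + d ≤ s := by
      by_contra hh
      push Not at hh
      nlinarith
    refine ⟨⟨?_, ?_⟩, ?_, ?_⟩ <;> nlinarith
  · have a1 := lam_hi hx0 hx1 y 0 s s0 s1
    have a2 := lam_hi hx0 hx1 (1 - y) 0 s s0 s1
    simp only [Int.cast_zero, zero_add] at a1 a2
    rw [hs', a1, a2]
    have hle : s ≤ 1 - (b + d) := by
      by_contra hh
      push Not at hh
      nlinarith
    refine ⟨⟨?_, ?_⟩, ?_, ?_⟩ <;> nlinarith

structure Qd where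
  A : ℂ
  u : ℂ
  v : ℂ
  x : ℝ
  y : ℝ
  hx0 : 0 < x
  hx1 : x < 1
  hy0 : 0 < y
  hy1 : y < 1
  hD : (conj u * v).im ≠ 0

namespace Qd

variable (q : Qd)

noncomputable def pt (a b : ℝ) : ℂ := q.A + a * q.u + b * q.v

noncomputable def X (z : ℂ) : ℝ := (conj (z - q.A) * q.v).im / (conj q.u * q.v).im

noncomputable def Y (z : ℂ) : ℝ := (conj q.u * (z - q.A)).im / (conj q.u * q.v).im

theorem X_pt (a b : ℝ) : q.X (q.pt a b) = a := by
  have := q.hD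
  rw [X, div_eq_iff this]
  simp [pt]; ring

theorem Y_pt (a b : ℝ) : q.Y (q.pt a b) = b := by
  have := q.hD
  rw [Y, div_eq_iff this]
  simp [pt]; ring

theorem X_shift (z : ℂ) (t : ℝ) : q.X (z + t * q.v) = q.X z := by
  simp only [X]
  congr 1
  simp; ring

theorem Y_shift (z : ℂ) (t : ℝ) : q.Y (z + t * q.v) = q.Y z + t := by
  have := q.hD
  simp only [Y]
  rw [div_add' _ _ _ this]
  congr 1
  simp; ring

noncomputable def I (z : ℂ) : ℝ := q.Y z + lam q.x (1 - q.y) (q.X z)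

noncomputable def J (z : ℂ) : ℝ := lam q.x q.y (q.X z) - q.Y z

noncomputable def pos (i j : ℤ) : ℂ :=
  q.pt ((((i + j) / 2 : ℤ) : ℝ) + (((i + j) % 2 : ℤ) : ℝ) * q.x)
    ((((i - j) / 2 : ℤ) : ℝ) + (((i + j) % 2 : ℤ) : ℝ) * q.y)

theorem pos_ev {i j : ℤ} (m k : ℤ) (h1 : i = m + k) (h2 : j = m - k) : q.pos i j = q.pt m k := by
  have a : (i + j) / 2 = m := by omega
  have b : (i - j) / 2 = k := by omega
  have c : (i + j) % 2 = 0 := by omega
  simp [pos, a, b, c]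

theorem pos_od {i j : ℤ} (m k : ℤ) (h1 : i = m + k + 1) (h2 : j = m - k) :
    q.pos i j = q.pt (m + q.x) (k + q.y) := by
  have a : (i + j) / 2 = m := by omega
  have b : (i - j) / 2 = k := by omega
  have c : (i + j) % 2 = 1 := by omega
  simp [pos, a, b, c]

theorem par_cases (i j : ℤ) :
    (∃ m k : ℤ, i = m + k ∧ j = m - k) ∨ (∃ m k : ℤ, i = m + k + 1 ∧ j = m - k) := by
  rcases Int.emod_two_eq_zero_or_one (i + j) with h | h
  · exact Or.inl ⟨(i + j) / 2, (i - j) / 2, by omega, by omega⟩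
  · exact Or.inr ⟨(i + j) / 2, (i - j) / 2, by omega, by omega⟩

theorem pt_comb (a b a' b' s t : ℝ) (h : s + t = 1) :
    s • q.pt a b + t • q.pt a' b' = q.pt (s * a + t * a') (s * b + t * b') := by
  have : (s : ℂ) + t = 1 := by exact_mod_cast h
  simp only [pt, Complex.real_smul]
  push_cast
  linear_combination q.A * this

theorem edgeH (i j : ℤ) (s t : ℝ) (hs : 0 ≤ s) (ht : 0 ≤ t) (h : s + t = 1) :
    q.I (s • q.pos i j + t • q.pos (i + 1) j) = i + t ∧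
    q.J (s • q.pos i j + t • q.pos (i + 1) j) = j := by
  have t1 : t ≤ 1 := by linarith
  obtain rfl : s = 1 - t := by linarith
  rcases par_cases i j with ⟨m, k, h1, h2⟩ | ⟨m, k, h1, h2⟩
  · rw [q.pos_ev m k h1 h2, q.pos_od m k (by omega) h2, q.pt_comb _ _ _ _ _ _ h, I, J, X_pt, Y_pt]
    have e : (1 - t) * (m : ℝ) + t * (m + q.x) = m + q.x * t := by ring
    rw [e, lam_lo q.hx0 q.hx1 _ _ _ ht t1, lam_lo q.hx0 q.hx1 _ _ _ ht t1, h1, h2]
    push_cast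
    constructor <;> ring
  · rw [q.pos_od m k h1 h2, q.pos_ev (m + 1) (k + 1) (by omega) (by omega),
      q.pt_comb _ _ _ _ _ _ h, I, J, X_pt, Y_pt]
    have e : (1 - t) * ((m : ℝ) + q.x) + t * ((m + 1 : ℤ) : ℝ) = m + (q.x + (1 - q.x) * t) := by
      push_cast; ring
    rw [e, lam_hi q.hx0 q.hx1 _ _ _ ht t1, lam_hi q.hx0 q.hx1 _ _ _ ht t1, h1, h2]
    push_cast
    constructor <;> ring

theorem edgeV (i j : ℤ) (s t : ℝ) (hs : 0 ≤ s) (ht : 0 ≤ t) (h : s + t = 1) :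
    q.I (s • q.pos i j + t • q.pos i (j + 1)) = i ∧
    q.J (s • q.pos i j + t • q.pos i (j + 1)) = j + t := by
  have t1 : t ≤ 1 := by linarith
  obtain rfl : s = 1 - t := by linarith
  rcases par_cases i j with ⟨m, k, h1, h2⟩ | ⟨m, k, h1, h2⟩
  · rw [q.pos_ev m k h1 h2, q.pos_od m (k - 1) (by omega) (by omega), q.pt_comb _ _ _ _ _ _ h,
      I, J, X_pt, Y_pt]
    have e : (1 - t) * (m : ℝ) + t * (m + q.x) = m + q.x * t := by ring
    rw [e, lam_lo q.hx0 q.hx1 _ _ _ ht t1, lam_lo q.hx0 q.hx1 _ _ _ ht t1, h1, h2]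
    push_cast
    constructor <;> ring
  · rw [q.pos_od m k h1 h2, q.pos_ev (m + 1) k (by omega) (by omega),
      q.pt_comb _ _ _ _ _ _ h, I, J, X_pt, Y_pt]
    have e : (1 - t) * ((m : ℝ) + q.x) + t * ((m + 1 : ℤ) : ℝ) = m + (q.x + (1 - q.x) * t) := by
      push_cast; ring
    rw [e, lam_hi q.hx0 q.hx1 _ _ _ ht t1, lam_hi q.hx0 q.hx1 _ _ _ ht t1, h1, h2]
    push_cast
    constructor <;> ring

def tile (i j : ℤ) : Set ℂ :=
  convexHull ℝ {q.pos i j, q.pos (i + 1) j, q.pos (i + 1) (j + 1), q.pos i (j + 1)}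

theorem hull4 (P0 P1 P2 P3 z : ℂ) (hz : z ∈ convexHull ℝ ({P0, P1, P2, P3} : Set ℂ)) :
    ∃ a b c d : ℝ, 0 ≤ a ∧ 0 ≤ b ∧ 0 ≤ c ∧ 0 ≤ d ∧ a + b + c + d = 1 ∧
      z = a * P0 + b * P1 + c * P2 + d * P3 := by
  have : convexHull ℝ ({P0, P1, P2, P3} : Set ℂ) ⊆
      {z | ∃ a b c d : ℝ, 0 ≤ a ∧ 0 ≤ b ∧ 0 ≤ c ∧ 0 ≤ d ∧ a + b + c + d = 1 ∧
      z = a * P0 + b * P1 + c * P2 + d * P3} := by
    apply convexHull_min
    · rintro w (rfl | rfl | rfl | rfl)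
      · exact ⟨1, 0, 0, 0, by norm_num, le_rfl, le_rfl, le_rfl, by norm_num, by simp⟩
      · exact ⟨0, 1, 0, 0, le_rfl, by norm_num, le_rfl, le_rfl, by norm_num, by simp⟩
      · exact ⟨0, 0, 1, 0, le_rfl, le_rfl, by norm_num, le_rfl, by norm_num, by simp⟩
      · exact ⟨0, 0, 0, 1, le_rfl, le_rfl, le_rfl, by norm_num, by norm_num, by simp⟩
    · rintro _ ⟨a, b, c, d, ha, hb, hc, hd, hs, rfl⟩ _ ⟨a', b', c', d', ha', hb', hc', hd', hs', rfl⟩
        s t hs0 ht0 hst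
      refine ⟨s * a + t * a', s * b + t * b', s * c + t * c', s * d + t * d', by positivity,
        by positivity, by positivity, by positivity, ?_, ?_⟩
      · linear_combination s * hs + t * hs' + hst
      · simp only [Complex.real_smul]; push_cast; ring
  exact this hz

theorem tile_sub (i j : ℤ) (z : ℂ) (hz : z ∈ q.tile i j) :
    ((i : ℝ) ≤ q.I z ∧ q.I z ≤ i + 1) ∧ ((j : ℝ) ≤ q.J z ∧ q.J z ≤ j + 1) := by
  obtain ⟨a, b, c, d, ha, hb, hc, hd, hs, hz⟩ := hull4 _ _ _ _ _ hz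
  have hs' : (a : ℂ) + b + c + d = 1 := by exact_mod_cast hs
  rcases par_cases i j with ⟨m, k, h1, h2⟩ | ⟨m, k, h1, h2⟩
  · rw [q.pos_ev m k h1 h2, q.pos_od m k (by omega) h2, q.pos_ev (m + 1) k (by omega) (by omega),
      q.pos_od m (k - 1) (by omega) (by omega)] at hz
    have e : z = q.pt (m + (q.x * (b + d) + c)) (k + (q.y * (b + d) - d)) := by
      rw [hz]; simp only [pt]; push_cast
      linear_combination (q.A + m * q.u + k * q.v) * hs'
    obtain ⟨⟨c0, c1⟩, ⟨c2, c3⟩, c4, c5⟩ := lam_core q.hx0 q.hx1 q.hy0 q.hy1 a b c d ha hb hc hd hs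
    rw [e, I, J, X_pt, Y_pt, (lam_add q.hx0 q.hx1 _ m _ c0 c1).1,
      (lam_add q.hx0 q.hx1 _ m _ c0 c1).1, h1, h2]
    push_cast
    refine ⟨⟨?_, ?_⟩, ?_, ?_⟩ <;> linarith
  · rw [q.pos_od m k h1 h2, q.pos_ev (m + 1) (k + 1) (by omega) (by omega),
      q.pos_od (m + 1) k (by omega) (by omega), q.pos_ev (m + 1) k (by omega) (by omega)] at hz
    have e : z = q.pt (((m + 1 : ℤ) : ℝ) + q.x - (q.x * (d + b) + a))
        (k + q.y - (q.y * (d + b) - b)) := by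
      rw [hz]; simp only [pt]; push_cast
      linear_combination (q.A + (m + 1 + q.x) * q.u + (k + q.y) * q.v) * hs'
    obtain ⟨⟨c0, c1⟩, ⟨c2, c3⟩, c4, c5⟩ := lam_core q.hx0 q.hx1 q.hy0 q.hy1 c d a b hc hd ha hb
      (by linarith)
    rw [e, I, J, X_pt, Y_pt, (lam_add q.hx0 q.hx1 _ (m + 1) _ c0 c1).2,
      (lam_add q.hx0 q.hx1 _ (m + 1) _ c0 c1).2, h1, h2]
    push_cast
    refine ⟨⟨?_, ?_⟩, ?_, ?_⟩ <;> linarith

theorem tile_int (i j : ℤ) (z : ℂ) (hz : z ∈ interior (q.tile i j)) :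
    ((i : ℝ) < q.I z ∧ q.I z < i + 1) ∧ ((j : ℝ) < q.J z ∧ q.J z < j + 1) := by
  have hc : Continuous (fun t : ℝ => z + (t : ℂ) * q.v) := by fun_prop
  have h1 : ∀ᶠ t : ℝ in nhds 0, z + (t : ℂ) * q.v ∈ q.tile i j := by
    apply hc.continuousAt.eventually_mem
    simpa using mem_interior_iff_mem_nhds.mp hz
  obtain ⟨δ, hδ, h⟩ := Metric.eventually_nhds_iff.mp h1
  have a1 := q.tile_sub i j _ (h (y := δ / 2) (by
    rw [Real.dist_eq, sub_zero, abs_lt]; constructor <;> linarith))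
  have a2 := q.tile_sub i j _ (h (y := -(δ / 2)) (by
    rw [Real.dist_eq, sub_zero, abs_lt]; constructor <;> linarith))
  simp only [I, J, X_shift, Y_shift] at a1 a2 ⊢
  refine ⟨⟨?_, ?_⟩, ?_, ?_⟩ <;> linarith [a1.1.1, a1.1.2, a1.2.1, a1.2.2, a2.1.1, a2.1.2, a2.2.1, a2.2.2]

theorem diag (i j : ℤ) : ∃ s t : ℝ, 0 < s ∧ s < 1 ∧ 0 < t ∧ t < 1 ∧
    (1 - s) • q.pos i j + s • q.pos (i + 1) (j + 1) =
      (1 - t) • q.pos (i + 1) j + t • q.pos i (j + 1) := by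
  have := q.hx0
  have := q.hx1
  have := q.hy0
  have := q.hy1
  rcases par_cases i j with ⟨m, k, h1, h2⟩ | ⟨m, k, h1, h2⟩
  · refine ⟨q.x, q.y, q.hx0, q.hx1, q.hy0, q.hy1, ?_⟩
    rw [q.pos_ev m k h1 h2, q.pos_od (i := i + 1) m k (by omega) h2,
      q.pos_ev (i := i + 1) (j := j + 1) (m + 1) k (by omega) (by omega),
      q.pos_od (i := i) (j := j + 1) m (k - 1) (by omega) (by omega), q.pt_comb _ _ _ _ _ _ (by ring),
      q.pt_comb _ _ _ _ _ _ (by ring)]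
    congr 1 <;> push_cast <;> ring
  · refine ⟨1 - q.x, 1 - q.y, by linarith, by linarith, by linarith, by linarith, ?_⟩
    rw [q.pos_od m k h1 h2, q.pos_ev (i := i + 1) (j := j) (m + 1) (k + 1) (by omega) (by omega),
      q.pos_od (i := i + 1) (j := j + 1) (m + 1) k (by omega) (by omega),
      q.pos_ev (i := i) (j := j + 1) (m + 1) k (by omega) (by omega),
      q.pt_comb _ _ _ _ _ _ (by ring), q.pt_comb _ _ _ _ _ _ (by ring)]
    congr 1 <;> push_cast <;> ring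

theorem finite_pos (R : ℝ) : {w : ℤ × ℤ | ‖q.pos w.1 w.2‖ ≤ R}.Finite := by
  have cX : Continuous q.X := by unfold X; fun_prop
  have cY : Continuous q.Y := by unfold Y; fun_prop
  obtain ⟨M1, h1⟩ := (isCompact_closedBall (0 : ℂ) R).exists_bound_of_continuousOn cX.continuousOn
  obtain ⟨M2, h2⟩ := (isCompact_closedBall (0 : ℂ) R).exists_bound_of_continuousOn cY.continuousOn
  obtain ⟨N, hN⟩ := exists_int_gt (M1 + M2 + 2)
  apply ((Set.finite_Icc (-N) N).prod (Set.finite_Icc (-N) N)).subset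
  rintro ⟨i, j⟩ hw
  have hw' : q.pos i j ∈ Metric.closedBall (0 : ℂ) R := by simpa using hw
  have a1 := abs_le.mp (h1 _ hw')
  have a2 := abs_le.mp (h2 _ hw')
  have := q.hx0
  have := q.hx1
  have := q.hy0
  have := q.hy1
  have key : (-N : ℝ) ≤ i ∧ (i : ℝ) ≤ N ∧ (-N : ℝ) ≤ j ∧ (j : ℝ) ≤ N := by
    rcases par_cases i j with ⟨m, k, e1, e2⟩ | ⟨m, k, e1, e2⟩
    · rw [q.pos_ev m k e1 e2, X_pt] at a1
      rw [q.pos_ev m k e1 e2, Y_pt] at a2
      rw [e1, e2]; push_cast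
      refine ⟨?_, ?_, ?_, ?_⟩ <;> linarith [a1.1, a1.2, a2.1, a2.2]
    · rw [q.pos_od m k e1 e2, X_pt] at a1
      rw [q.pos_od m k e1 e2, Y_pt] at a2
      rw [e1, e2]; push_cast
      refine ⟨?_, ?_, ?_, ?_⟩ <;> linarith [a1.1, a1.2, a2.1, a2.2]
  obtain ⟨k1, k2, k3, k4⟩ := key
  exact ⟨⟨by exact_mod_cast k1, by exact_mod_cast k2⟩, by exact_mod_cast k3, by exact_mod_cast k4⟩

end Qd

end Pool.Agent.H256Z.TB
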