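import Mathlib
import Pool.Agent.H256Z.TB.Geo

set_option autoImplicit false

namespace Pool.Agent.H256Z.TB

open ComplexConjugate

theorem side (K : Set ℂ) (hK : Convex ℝ K) (P P' p : ℂ) (hP : P ∈ K) (hP' : P' ∈ K) (hne : P' - P ≠ 0)
    (hp : p ∈ openSegment ℝ P P') (hpK : p ∉ interior K) (z1 z2 : ℂ) (h1 : z1 ∈ interior K)
    (h2 : z2 ∈ interior K) :
    0 < (conj (P' - P) * (z1 - p)).im * (conj (P' - P) * (z2 - p)).im := by
  have key : ∀ z ∈ interior K, (conj (P' - P) * (z - p)).im ≠ 0 := by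
    intro z hz h0
    obtain ⟨s, t, hs, ht, hst, rfl⟩ := hp
    have hst' : (s : ℂ) + t = 1 := by exact_mod_cast hst
    set E := P' - P with hE
    obtain ⟨μ, hμ⟩ : ∃ μ : ℝ, z - (s • P + t • P') = μ * E := by
      refine ⟨(conj E * (z - (s • P + t • P'))).re / Complex.normSq E, ?_⟩
      have hn : (Complex.normSq E : ℂ) ≠ 0 := by
        exact_mod_cast (Complex.normSq_pos.mpr hne).ne'
      have hre : ((conj E * (z - (s • P + t • P'))).re : ℂ) = conj E * (z - (s • P + t • P')) :=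
        Complex.ext (by simp) (by rw [h0]; simp)
      push_cast
      rw [hre, Complex.normSq_eq_conj_mul_self]
      have : conj E ≠ 0 := by simpa using hne
      field_simp
    have hz' : z = s • P + t • P' + μ * E := by rw [← hμ]; ring
    apply hpK
    rcases lt_trichotomy μ 0 with h | h | h
    · apply hK.openSegment_interior_closure_subset_interior hz (subset_closure hP')
      have hd : 0 < s - μ := by linarith
      refine ⟨s / (s - μ), -μ / (s - μ), by positivity, div_pos (by linarith) hd,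
        by field_simp; ring, ?_⟩
      have hd' : ((s : ℂ) - μ) ≠ 0 := by exact_mod_cast hd.ne'
      rw [hz', hE]
      simp only [Complex.real_smul]
      push_cast
      field_simp
      linear_combination (μ * P') * hst'
    · subst h
      simpa [hz'] using hz
    · apply hK.openSegment_interior_closure_subset_interior hz (subset_closure hP)
      have hd : 0 < t + μ := by linarith
      refine ⟨t / (t + μ), μ / (t + μ), by positivity, by positivity, by field_simp, ?_⟩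
      have hd' : ((t : ℂ) + μ) ≠ 0 := by exact_mod_cast hd.ne'
      rw [hz', hE]
      simp only [Complex.real_smul]
      push_cast
      field_simp
      linear_combination (-μ * P) * hst'
  by_contra hh
  push Not at hh
  have a1 := key z1 h1
  have a2 := key z2 h2
  set a := (conj (P' - P) * (z1 - p)).im with ha
  set b := (conj (P' - P) * (z2 - p)).im with hb
  have hab : a * b < 0 := lt_of_le_of_ne hh (mul_ne_zero a1 a2)
  have hd : 0 < a ^ 2 - a * b := by nlinarith [sq_nonneg a]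
  have hst : -(a * b) / (a ^ 2 - a * b) + a ^ 2 / (a ^ 2 - a * b) = 1 := by
    rw [← add_div, div_eq_one_iff_eq hd.ne']; ring
  have hm := hK.interior h1 h2 (a := -(a * b) / (a ^ 2 - a * b)) (b := a ^ 2 / (a ^ 2 - a * b))
    (div_nonneg (by linarith) hd.le) (by positivity) hst
  apply key _ hm
  set s := -(a * b) / (a ^ 2 - a * b) with hs
  set t := a ^ 2 / (a ^ 2 - a * b) with ht
  have hst' : (s : ℂ) + t = 1 := by exact_mod_cast hst
  have e : conj (P' - P) * (s • z1 + t • z2 - p) =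
      s * (conj (P' - P) * (z1 - p)) + t * (conj (P' - P) * (z2 - p)) := by
    simp only [Complex.real_smul]
    linear_combination (conj (P' - P) * p) * hst'
  rw [e, Complex.add_im, Complex.im_ofReal_mul, Complex.im_ofReal_mul, ← ha, ← hb, hs, ht]
  field_simp
  ring

noncomputable def lin (i j : ℤ) (z : ℂ) : ℂ := if (i + j) % 2 = 0 then z else conj z

theorem lin_comb (i j : ℤ) (s t : ℝ) (z w : ℂ) :
    lin i j (s • z + t • w) = s * lin i j z + t * lin i j w := by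
  unfold lin
  split_ifs <;> simp

theorem lin_sub (i j : ℤ) (z w : ℂ) : lin i j (z - w) = lin i j z - lin i j w := by
  unfold lin
  split_ifs <;> simp

theorem lin_cross (i j : ℤ) (g z w : ℂ) (hg : g ≠ 0) (h1 : (g * lin i j z).im = 0)
    (h2 : (g * lin i j w).im = 0) : (conj z * w).im = 0 := by
  have h3 : (conj (g * lin i j z) * (g * lin i j w)).im = 0 := by
    rw [Complex.mul_im, h2, Complex.conj_im, h1]; simp
  have h4 : conj (g * lin i j z) * (g * lin i j w) =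
      (Complex.normSq g : ℝ) * (conj (lin i j z) * lin i j w) := by
    rw [Complex.normSq_eq_conj_mul_self, map_mul]; ring
  rw [h4, Complex.im_ofReal_mul] at h3
  have h5 := (mul_eq_zero.mp h3).resolve_left (Complex.normSq_pos.mpr hg).ne'
  unfold lin at h5
  split_ifs at h5
  · exact h5
  · simp at h5 ⊢
    linarith

theorem lin_law (i j i' j' : ℤ) (hp : (i + j) % 2 ≠ (i' + j') % 2) (ω ω' E d d' : ℂ) (l : ℝ)
    (hE : E ≠ 0) (h1 : ω * lin i j E = ω' * lin i' j' E)
    (h2 : d' * conj E = (l : ℂ) * (-(E * conj d))) :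
    ω' * lin i' j' d' = -l * (ω * lin i j d) := by
  unfold lin at *
  by_cases h : (i + j) % 2 = 0
  · have h' : ¬ (i' + j') % 2 = 0 := by omega
    simp only [h, h', if_true, if_false] at *
    have h3 := congrArg conj h2
    simp only [map_mul, map_neg, Complex.conj_conj, Complex.conj_ofReal] at h3
    apply mul_right_cancel₀ hE
    linear_combination ω' * h3 + (l * d) * h1
  · have h' : (i' + j') % 2 = 0 := by omega
    simp only [h, h', if_true, if_false] at *
    have hE' : conj E ≠ 0 := by simpa using hE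
    apply mul_right_cancel₀ hE'
    linear_combination ω' * h2 + (l * conj d) * h1

theorem four (c1 c2 c3 c4 e1 e2 e3 e4 : Prop) (n1 : ¬ (c1 ∧ ¬ c2 ∧ c3 ∧ ¬ c4))
    (n2 : ¬ (¬ c1 ∧ c2 ∧ ¬ c3 ∧ c4)) (b1 : e1 → ¬ (c1 ↔ c2)) (b2 : e2 → ¬ (c4 ↔ c3))
    (b3 : e3 → ¬ (c1 ↔ c4)) (b4 : e4 → ¬ (c2 ↔ c3))
    (two : (e1 ∧ e2) ∨ (e1 ∧ e3) ∨ (e1 ∧ e4) ∨ (e2 ∧ e3) ∨ (e2 ∧ e4) ∨ (e3 ∧ e4)) :
    (¬ (c1 ↔ c2) → e1) ∧ (¬ (c4 ↔ c3) → e2) ∧ (¬ (c1 ↔ c4) → e3) ∧ (¬ (c2 ↔ c3) → e4) := by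
  by_cases c1 <;> by_cases c2 <;> by_cases c3 <;> by_cases c4 <;> simp_all

namespace Qd

variable (q : Qd)

def Adjc (i j i' j' : ℤ) : Prop := (i' = i + 1 ∧ j' = j) ∨ (i' = i ∧ j' = j + 1)

theorem oH {i j : ℤ} {z : ℂ} (h : z ∈ openSegment ℝ (q.pos i j) (q.pos (i + 1) j)) :
    ((i : ℝ) < q.I z ∧ q.I z < i + 1) ∧ q.J z = j := by
  obtain ⟨s, t, hs, ht, hst, rfl⟩ := h
  obtain ⟨a, b⟩ := q.edgeH i j s t hs.le ht.le hst
  rw [a, b]
  exact ⟨⟨by linarith, by linarith⟩, rfl⟩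

theorem oV {i j : ℤ} {z : ℂ} (h : z ∈ openSegment ℝ (q.pos i j) (q.pos i (j + 1))) :
    q.I z = i ∧ ((j : ℝ) < q.J z ∧ q.J z < j + 1) := by
  obtain ⟨s, t, hs, ht, hst, rfl⟩ := h
  obtain ⟨a, b⟩ := q.edgeV i j s t hs.le ht.le hst
  rw [a, b]
  exact ⟨rfl, by linarith, by linarith⟩

theorem cH {i j : ℤ} {z : ℂ} (h : z ∈ segment ℝ (q.pos i j) (q.pos (i + 1) j)) :
    ((i : ℝ) ≤ q.I z ∧ q.I z ≤ i + 1) ∧ q.J z = j := by
  obtain ⟨s, t, hs, ht, hst, rfl⟩ := h
  obtain ⟨a, b⟩ := q.edgeH i j s t hs ht hst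
  rw [a, b]
  exact ⟨⟨by linarith, by linarith⟩, rfl⟩

theorem cV {i j : ℤ} {z : ℂ} (h : z ∈ segment ℝ (q.pos i j) (q.pos i (j + 1))) :
    q.I z = i ∧ ((j : ℝ) ≤ q.J z ∧ q.J z ≤ j + 1) := by
  obtain ⟨s, t, hs, ht, hst, rfl⟩ := h
  obtain ⟨a, b⟩ := q.edgeV i j s t hs ht hst
  rw [a, b]
  exact ⟨rfl, by linarith, by linarith⟩

theorem int1 {a b : ℤ} {x : ℝ} (h1 : (a : ℝ) < x) (h2 : x < a + 1) (h3 : (b : ℝ) ≤ x)
    (h4 : x ≤ b + 1) : a = b := by
  have e1 : (a : ℝ) < b + 1 := by linarith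
  have e2 : (b : ℝ) < a + 1 := by linarith
  have e3 : a < b + 1 := by exact_mod_cast e1
  have e4 : b < a + 1 := by exact_mod_cast e2
  omega

theorem int2 {a b : ℤ} (h1 : (a : ℝ) < b) (h2 : (b : ℝ) < a + 1) : False := by
  have e3 : a < b := by exact_mod_cast h1
  have e4 : b < a + 1 := by exact_mod_cast h2
  omega

theorem int3 {a b : ℤ} (h1 : (a : ℝ) ≤ b) (h2 : (b : ℝ) ≤ a + 1) : b = a ∨ b = a + 1 := by
  have e3 : a ≤ b := by exact_mod_cast h1
  have e4 : b ≤ a + 1 := by exact_mod_cast h2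
  omega

theorem edge_not_int {i j i' j' : ℤ} (ha : Adjc i j i' j') {z : ℂ}
    (h : z ∈ openSegment ℝ (q.pos i j) (q.pos i' j')) (a b : ℤ) : z ∉ interior (q.tile a b) := by
  intro hz
  have := q.tile_int a b z hz
  rcases ha with ⟨rfl, rfl⟩ | ⟨rfl, rfl⟩
  · rw [(q.oH h).2] at this
    exact int2 this.2.1 this.2.2
  · rw [(q.oV h).1] at this
    exact int2 this.1.1 this.1.2

theorem edge_ne {i j i' j' : ℤ} (ha : Adjc i j i' j') : q.pos i' j' - q.pos i j ≠ 0 := by
  intro h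
  have h' : q.pos i' j' = q.pos i j := sub_eq_zero.mp h
  rcases ha with ⟨rfl, rfl⟩ | ⟨rfl, rfl⟩
  · have a := (q.edgeH i j' 0 1 le_rfl zero_le_one (by ring)).1
    have b := (q.edgeH i j' 1 0 zero_le_one le_rfl (by ring)).1
    simp only [zero_smul, one_smul, zero_add, add_zero] at a b
    rw [h'] at a
    linarith
  · have a := (q.edgeV i' j 0 1 le_rfl zero_le_one (by ring)).2
    have b := (q.edgeV i' j 1 0 zero_le_one le_rfl (by ring)).2
    simp only [zero_smul, one_smul, zero_add, add_zero] at a b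
    rw [h'] at a
    linarith

/-- a point of an open edge lying in a closed tile: the edge is a side of the tile -/
theorem edge_face {i j i' j' : ℤ} (ha : Adjc i j i' j') {z : ℂ}
    (h : z ∈ openSegment ℝ (q.pos i j) (q.pos i' j')) {a b : ℤ} (hz : z ∈ q.tile a b) :
    (i = a ∧ j = b ∧ i' = a + 1 ∧ j' = b) ∨ (i = a ∧ j = b + 1 ∧ i' = a + 1 ∧ j' = b + 1) ∨
    (i = a ∧ j = b ∧ i' = a ∧ j' = b + 1) ∨ (i = a + 1 ∧ j = b ∧ i' = a + 1 ∧ j' = b + 1) := by
  have t := q.tile_sub a b z hz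
  rcases ha with ⟨rfl, rfl⟩ | ⟨rfl, rfl⟩
  · have o := q.oH h
    have e1 := int1 o.1.1 o.1.2 t.1.1 t.1.2
    rw [o.2] at t
    have e2 := int3 t.2.1 t.2.2
    omega
  · have o := q.oV h
    have e1 := int1 o.2.1 o.2.2 t.2.1 t.2.2
    rw [o.1] at t
    have e2 := int3 t.1.1 t.1.2
    omega

theorem corner (a b : ℤ) : q.pos a b ∈ q.tile a b ∧ q.pos (a + 1) b ∈ q.tile a b ∧
    q.pos (a + 1) (b + 1) ∈ q.tile a b ∧ q.pos a (b + 1) ∈ q.tile a b :=
  ⟨subset_convexHull _ _ (by simp), subset_convexHull _ _ (by simp),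
    subset_convexHull _ _ (by simp), subset_convexHull _ _ (by simp)⟩

theorem ends_mem {a b : ℤ} {z w : ℂ} (h : openSegment ℝ z w ⊆ interior (q.tile a b)) :
    z ∈ q.tile a b ∧ w ∈ q.tile a b := by
  have hc : IsClosed (q.tile a b) := Set.Finite.isClosed_convexHull ℝ (Set.toFinite _)
  have : segment ℝ z w ⊆ q.tile a b :=
    segment_subset_closure_openSegment.trans
      (hc.closure_subset_iff.mpr (h.trans interior_subset))
  exact ⟨this (left_mem_segment _ _ _), this (right_mem_segment _ _ _)⟩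

theorem mid_mem (z w : ℂ) : (1 / 2 : ℝ) • z + (1 / 2 : ℝ) • w ∈ openSegment ℝ z w :=
  ⟨1 / 2, 1 / 2, by norm_num, by norm_num, by norm_num, rfl⟩

theorem face_uniq {a b a' b' : ℤ} {z w : ℂ} (h : openSegment ℝ z w ⊆ interior (q.tile a b))
    (h' : openSegment ℝ z w ⊆ interior (q.tile a' b')) : a = a' ∧ b = b' := by
  have t := q.tile_int a b _ (h (mid_mem z w))
  have t' := q.tile_int a' b' _ (h' (mid_mem z w))
  exact ⟨int1 t.1.1 t.1.2 t'.1.1.le t'.1.2.le, int1 t.2.1 t.2.2 t'.2.1.le t'.2.2.le⟩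

theorem dyn (Wv : ℤ → ℤ → ℂ)
    (hfold : ∀ i j, ∃ ω β : ℂ, ω ≠ 0 ∧ ω * lin i j (q.pos i j) + β = Wv i j ∧
      ω * lin i j (q.pos (i + 1) j) + β = Wv (i + 1) j ∧
      ω * lin i j (q.pos (i + 1) (j + 1)) + β = Wv (i + 1) (j + 1) ∧
      ω * lin i j (q.pos i (j + 1)) + β = Wv i (j + 1))
    (p : ℕ → ℂ)
    (hseg : ∀ n, ∃ i j, openSegment ℝ (p n) (p (n + 1)) ⊆ interior (q.tile i j))
    (hedge : ∀ n, ∃ i j i' j', Adjc i j i' j' ∧ p (n + 1) ∈ openSegment ℝ (q.pos i j) (q.pos i' j') ∧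
      ∃ l : ℝ, 0 < l ∧ (p (n + 2) - p (n + 1)) * conj (q.pos i' j' - q.pos i j) =
        (l : ℂ) * (-((q.pos i' j' - q.pos i j) * conj (p (n + 1) - p n)))) :
    ∃ (w : ℂ) (κ : ℝ), w ≠ 0 ∧
      (∀ n i j i' j', Adjc i j i' j' → p (n + 1) ∈ openSegment ℝ (q.pos i j) (q.pos i' j') →
        ((conj w * Wv i j).im - κ) * ((conj w * Wv i' j').im - κ) < 0 ∧
        (∃ n, openSegment ℝ (p n) (p (n + 1)) ⊆ interior (q.tile i j)) ∧
        (∃ n, openSegment ℝ (p n) (p (n + 1)) ⊆ interior (q.tile (i - (j' - j)) (j - (i' - i))))) ∧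
      (∀ i j, ∃ s t : ℝ, 0 < s ∧ s < 1 ∧ 0 < t ∧ t < 1 ∧
        (1 - s) * ((conj w * Wv i j).im - κ) + s * ((conj w * Wv (i + 1) (j + 1)).im - κ) =
        (1 - t) * ((conj w * Wv (i + 1) j).im - κ) + t * ((conj w * Wv i (j + 1)).im - κ)) := by
  choose ω β hω hf using hfold
  choose fi fj hseg using hseg
  have hends : ∀ {i j i' j' : ℤ}, Adjc i j i' j' → ∀ {z : ℂ},
      z ∈ openSegment ℝ (q.pos i j) (q.pos i' j') → ∀ {a b : ℤ}, z ∈ q.tile a b →
      q.pos i j ∈ q.tile a b ∧ q.pos i' j' ∈ q.tile a b ∧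
      ω a b * lin a b (q.pos i j) + β a b = Wv i j ∧
      ω a b * lin a b (q.pos i' j') + β a b = Wv i' j' := by
    intro i j i' j' ha z hz a b hzt
    have c := q.corner a b
    have f := hf a b
    rcases q.edge_face ha hz hzt with ⟨rfl, rfl, rfl, rfl⟩ | ⟨rfl, rfl, rfl, rfl⟩ |
      ⟨rfl, rfl, rfl, rfl⟩ | ⟨rfl, rfl, rfl, rfl⟩
    · exact ⟨c.1, c.2.1, f.1, f.2.1⟩
    · exact ⟨c.2.2.2, c.2.2.1, f.2.2.2, f.2.2.1⟩
    · exact ⟨c.1, c.2.2.2, f.1, f.2.2.2⟩
    · exact ⟨c.2.1, c.2.2.1, f.2.1, f.2.2.1⟩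
  have hcross : ∀ n {i j i' j' : ℤ}, Adjc i j i' j' →
      p (n + 1) ∈ openSegment ℝ (q.pos i j) (q.pos i' j') →
      (conj (q.pos i' j' - q.pos i j) * (p (n + 1) - p n)).im ≠ 0 := by
    intro n i j i' j' ha hz h0
    have e := hends ha hz (q.ends_mem (hseg n)).2
    have := side _ (convex_convexHull ℝ _) _ _ _ e.1 e.2.1 (q.edge_ne ha) hz
      (q.edge_not_int ha hz (fi n) (fj n)) _ _ (hseg n (mid_mem _ _)) (hseg n (mid_mem _ _))
    have e2 : conj (q.pos i' j' - q.pos i j) *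
        ((1 / 2 : ℝ) • p n + (1 / 2 : ℝ) • p (n + 1) - p (n + 1)) =
        ((-1 / 2 : ℝ) : ℂ) * (conj (q.pos i' j' - q.pos i j) * (p (n + 1) - p n)) := by
      simp only [Complex.real_smul]; push_cast; ring
    rw [e2, Complex.im_ofReal_mul, h0] at this
    simp at this
  have hne : ∀ n, ¬ (fi n = fi (n + 1) ∧ fj n = fj (n + 1)) := by
    rintro n ⟨e1, e2⟩
    obtain ⟨i, j, i', j', ha, hz, l, hl, hlaw⟩ := hedge n
    have e := hends ha hz (q.ends_mem (hseg n)).2
    have h2 := hseg (n + 1) (mid_mem _ _)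
    rw [← e1, ← e2] at h2
    have := side _ (convex_convexHull ℝ _) _ _ _ e.1 e.2.1 (q.edge_ne ha) hz
      (q.edge_not_int ha hz (fi n) (fj n)) _ _ (hseg n (mid_mem _ _)) h2
    set E := q.pos i' j' - q.pos i j with hE
    have e2 : conj E * ((1 / 2 : ℝ) • p n + (1 / 2 : ℝ) • p (n + 1) - p (n + 1)) =
        ((-1 / 2 : ℝ) : ℂ) * (conj E * (p (n + 1) - p n)) := by
      simp only [Complex.real_smul]; push_cast; ring
    have e3 : conj E * ((1 / 2 : ℝ) • p (n + 1) + (1 / 2 : ℝ) • p (n + 1 + 1) - p (n + 1)) =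
        ((-l / 2 : ℝ) : ℂ) * conj (conj E * (p (n + 1) - p n)) := by
      simp only [Complex.real_smul, map_mul, Complex.conj_conj]; push_cast
      linear_combination (1 / 2 : ℂ) * hlaw
    rw [e2, e3, Complex.im_ofReal_mul, Complex.im_ofReal_mul, Complex.conj_im] at this
    nlinarith [mul_nonneg hl.le (sq_nonneg (conj E * (p (n + 1) - p n)).im)]
  obtain ⟨w, hw⟩ : ∃ w, w = ω (fi 0) (fj 0) * lin (fi 0) (fj 0) (p 1 - p 0) := ⟨_, rfl⟩
  obtain ⟨κ, hκ⟩ : ∃ κ, κ = (conj w * (ω (fi 0) (fj 0) * lin (fi 0) (fj 0) (p 0) +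
    β (fi 0) (fj 0))).im := ⟨_, rfl⟩
  have hw0 : w ≠ 0 := by
    obtain ⟨i, j, i', j', ha, hz, _⟩ := hedge 0
    have h1 := hcross 0 ha hz
    have h2 : p 1 - p 0 ≠ 0 := by
      intro h
      rw [zero_add, h] at h1
      simp at h1
    rw [hw]
    apply mul_ne_zero (hω _ _)
    unfold lin
    split_ifs
    · exact h2
    · exact (map_ne_zero _).mpr h2
  let h : ℤ → ℤ → ℂ → ℝ := fun a b z => (conj w * (ω a b * lin a b z + β a b)).im - κ
  have hcomb : ∀ a b (s t : ℝ) z z', s + t = 1 →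
      h a b (s • z + t • z') = s * h a b z + t * h a b z' := by
    intro a b s t z z' hst
    have hst' : (s : ℂ) + t = 1 := by exact_mod_cast hst
    have e : conj w * (ω a b * lin a b (s • z + t • z') + β a b) =
        s * (conj w * (ω a b * lin a b z + β a b)) + t * (conj w * (ω a b * lin a b z' + β a b)) := by
      rw [lin_comb]
      linear_combination (-(conj w * β a b)) * hst'
    simp only [h]
    rw [e, Complex.add_im, Complex.im_ofReal_mul, Complex.im_ofReal_mul]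
    linear_combination κ * hst
  have hdiff : ∀ a b z z', h a b z - h a b z' = (conj w * ω a b * lin a b (z - z')).im := by
    intro a b z z'
    simp only [h]
    rw [lin_sub, sub_sub_sub_cancel_right, ← Complex.sub_im]
    congr 1; ring
  have hinv : ∀ n, h (fi n) (fj n) (p n) = 0 ∧ h (fi n) (fj n) (p (n + 1)) = 0 := by
    intro n
    induction n with
    | zero =>
      have a0 : h (fi 0) (fj 0) (p 0) = 0 := by simp only [h]; rw [hκ]; ring
      refine ⟨a0, ?_⟩
      have := hdiff (fi 0) (fj 0) (p 1) (p 0)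
      rw [a0, sub_zero, mul_assoc, ← hw] at this
      rw [zero_add, this]
      simp; ring
    | succ n ih =>
      obtain ⟨i, j, i', j', ha, hz, l, hl, hlaw⟩ := hedge n
      have t1 := (q.ends_mem (hseg n)).2
      have t2 := (q.ends_mem (hseg (n + 1))).1
      have e := hends ha hz t1
      have e' := hends ha hz t2
      have hpar : (fi n + fj n) % 2 ≠ (fi (n + 1) + fj (n + 1)) % 2 := by
        have f1 := q.edge_face ha hz t1
        have f2 := q.edge_face ha hz t2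
        have f3 := hne n
        omega
      have a1 : h (fi (n + 1)) (fj (n + 1)) (p (n + 1)) = 0 := by
        rw [← ih.2]
        obtain ⟨s, t, _, _, hst, hp⟩ := hz
        rw [← hp, hcomb _ _ _ _ _ _ hst, hcomb _ _ _ _ _ _ hst]
        simp only [h]
        rw [e.2.2.1, e.2.2.2, e'.2.2.1, e'.2.2.2]
      refine ⟨a1, ?_⟩
      have a2 := lin_law _ _ _ _ hpar (ω (fi n) (fj n)) (ω (fi (n + 1)) (fj (n + 1))) _ _ _ l
        (q.edge_ne ha) (by
          rw [lin_sub, lin_sub]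
          linear_combination e.2.2.2 - e.2.2.1 - e'.2.2.2 + e'.2.2.1) hlaw
      have a3 := hdiff (fi (n + 1)) (fj (n + 1)) (p (n + 2)) (p (n + 1))
      have a4 := hdiff (fi n) (fj n) (p (n + 1)) (p n)
      rw [ih.1, ih.2, sub_zero] at a4
      rw [a1, sub_zero, mul_assoc, a2] at a3
      rw [a3]
      have e4 : conj w * (-(l : ℂ) * (ω (fi n) (fj n) * lin (fi n) (fj n) (p (n + 1) - p n))) =
          ((-l : ℝ) : ℂ) * (conj w * ω (fi n) (fj n) * lin (fi n) (fj n) (p (n + 1) - p n)) := by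
        push_cast; ring
      rw [e4, Complex.im_ofReal_mul, ← a4, mul_zero]
  refine ⟨w, κ, hw0, ?_, ?_⟩
  · intro n i j i' j' ha hz
    have t1 := (q.ends_mem (hseg n)).2
    have t2 := (q.ends_mem (hseg (n + 1))).1
    have e := hends ha hz t1
    refine ⟨?_, ?_⟩
    · have hc := hcross n ha hz
      obtain ⟨s, t, hs, ht, hst, hp⟩ := hz
      have a1 := (hinv n).2
      rw [← hp, hcomb _ _ _ _ _ _ hst] at a1
      have a2 := hdiff (fi n) (fj n) (q.pos i' j') (q.pos i j)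
      have a3 := hdiff (fi n) (fj n) (p (n + 1)) (p n)
      rw [(hinv n).1, (hinv n).2, sub_zero] at a3
      rw [← e.2.2.1, ← e.2.2.2]
      change h (fi n) (fj n) (q.pos i j) * h (fi n) (fj n) (q.pos i' j') < 0
      set x := h (fi n) (fj n) (q.pos i j)
      set y := h (fi n) (fj n) (q.pos i' j')
      have hx : x ≠ 0 := by
        intro hx
        have hy : y = 0 := by
          rw [hx] at a1
          have : t * y = 0 := by linarith
          exact (mul_eq_zero.mp this).resolve_left ht.ne'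
        rw [hx, hy, sub_zero] at a2
        exact hc (lin_cross _ _ _ _ _ (mul_ne_zero (by simpa using hw0) (hω _ _)) a2.symm a3.symm)
      have hx2 : 0 < x ^ 2 := by positivity
      have : t * (x * y) = -(s * x ^ 2) := by linear_combination x * a1
      by_contra hh
      push Not at hh
      nlinarith [mul_nonneg ht.le hh, mul_pos hs hx2]
    · have f1 := q.edge_face ha hz t1
      have f2 := q.edge_face ha hz t2
      have f3 := hne n
      have f4 : ((fi n = i ∧ fj n = j) ∧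
          (fi (n + 1) = i - (j' - j) ∧ fj (n + 1) = j - (i' - i))) ∨
          ((fi (n + 1) = i ∧ fj (n + 1) = j) ∧ (fi n = i - (j' - j) ∧ fj n = j - (i' - i))) := by
        omega
      rcases f4 with ⟨⟨g1, g2⟩, g3, g4⟩ | ⟨⟨g1, g2⟩, g3, g4⟩
      · exact ⟨⟨n, by rw [← g1, ← g2]; exact hseg n⟩, ⟨n + 1, by rw [← g3, ← g4]; exact hseg _⟩⟩
      · exact ⟨⟨n + 1, by rw [← g1, ← g2]; exact hseg _⟩, ⟨n, by rw [← g3, ← g4]; exact hseg _⟩⟩
  · intro i j
    obtain ⟨s, t, s0, s1, t0, t1, e⟩ := q.diag i j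
    refine ⟨s, t, s0, s1, t0, t1, ?_⟩
    have := congrArg (h i j) e
    rw [hcomb _ _ _ _ _ _ (by ring), hcomb _ _ _ _ _ _ (by ring)] at this
    simp only [h] at this
    obtain ⟨f1, f2, f3, f4⟩ := hf i j
    rw [f1, f2, f3, f4] at this
    exact this

end Qd

end Pool.Agent.H256Z.TB
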