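import Mathlib

set_option autoImplicit false

namespace Pool.Agent.H256Z.TB

open Classical

abbrev L4 := Fin 4 → ℤ

def e (i : Fin 4) : L4 := Pi.single i 1

def par (n : L4) : ℤ := n 0 + n 2 - n 1 - n 3

def kap (i : Fin 4) : ℤ := ![0, 1, 0, 1] i

def Adj (u v : L4) : Prop :=
  ∃ i, (par u = kap i ∧ v = u + e i) ∨ (par v = kap i ∧ u = v + e i)

theorem Adj.symm {u v : L4} (h : Adj u v) : Adj v u := by
  obtain ⟨i, h | h⟩ := h
  · exact ⟨i, Or.inr h⟩
  · exact ⟨i, Or.inl h⟩

theorem par_add_e (u : L4) (i : Fin 4) : par (u + e i) = par u + 1 - 2 * kap i := by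
  fin_cases i <;> simp [par, e, kap] <;> ring

theorem par_sub_e (u : L4) (i : Fin 4) : par (u - e i) = par u - 1 + 2 * kap i := by
  have := par_add_e (u - e i) i
  rw [sub_add_cancel] at this
  linarith

theorem kap_add_two (i : Fin 4) : kap (i + 2) = kap i := by
  fin_cases i <;> rfl

theorem kap_add_one (i : Fin 4) : kap (i + 1) = 1 - kap i := by
  fin_cases i <;> rfl

theorem kap_add_three (i : Fin 4) : kap (i + 3) = 1 - kap i := by
  fin_cases i <;> rfl

theorem kap_eq_iff (i j : Fin 4) : kap j = kap i ↔ j = i ∨ j = i + 2 := by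
  revert i j; decide

theorem ne_add_two (i : Fin 4) : i + 2 ≠ i := by
  revert i; decide

theorem fin4 (i : Fin 4) : i + 1 ≠ i ∧ i + 3 ≠ i ∧ i + 1 ≠ i + 3 ∧ (kap i = 0 ∨ kap i = 1) := by
  revert i; decide

theorem sum_four {M : Type*} [AddCommMonoid M] (i : Fin 4) (f : Fin 4 → M) :
    ∑ j, f j = f i + f (i + 1) + f (i + 2) + f (i + 3) := by
  rw [Fin.sum_univ_four]
  fin_cases i
  · rfl
  · show f 0 + f 1 + f 2 + f 3 = f 1 + f 2 + f 3 + f 0
    abel
  · show f 0 + f 1 + f 2 + f 3 = f 2 + f 3 + f 0 + f 1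
    abel
  · show f 0 + f 1 + f 2 + f 3 = f 3 + f 0 + f 1 + f 2
    abel

theorem e_self (i : Fin 4) : e i i = 1 := by simp [e]

theorem e_ne {i j : Fin 4} (h : j ≠ i) : e i j = 0 := by simp [e, h]

def Rch (P : L4 → Prop) (a b : L4) : Prop :=
  Relation.ReflTransGen (fun u v => Adj u v ∧ P u ∧ P v) a b

theorem Rch.right {P : L4 → Prop} {a b : L4} (h : Rch P a b) (ha : P a) : P b := by
  induction h with
  | refl => exact ha
  | tail _ h _ => exact h.2.2

theorem Rch.mono {P Q : L4 → Prop} {a b : L4} (h : Rch P a b) (hPQ : ∀ v, P v → Q v) :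
    Rch Q a b := by
  induction h with
  | refl => exact Relation.ReflTransGen.refl
  | tail _ h ih => exact Relation.ReflTransGen.tail ih ⟨h.1, hPQ _ h.2.1, hPQ _ h.2.2⟩

theorem Rch.const {P : L4 → Prop} {a b : L4} (h : Rch P a b) {β : Type*} (m : L4 → β)
    (hm : ∀ u i, par u = kap i → P u → P (u + e i) → m (u + e i) = m u) : m a = m b := by
  induction h with
  | refl => rfl
  | tail _ h ih =>
    obtain ⟨⟨i, h1 | h1⟩, h2, h3⟩ := h
    · obtain ⟨hp, rfl⟩ := h1
      rw [ih, hm _ i hp h2 h3]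
    · obtain ⟨hp, rfl⟩ := h1
      rw [ih, hm _ i hp h3 h2]

section cocycle

variable {G : Type*} [AddCommGroup G] [LinearOrder G] [IsOrderedAddMonoid G]

/-- counting identity along an edge -/
theorem count_step (T : L4 →+ G) (hpos : ∀ i, 0 < T (e i)) (K : Finset L4) (lo hi : G)
    (hK : ∀ k ∈ K, lo < T k ∧ T k < hi)
    (hcl : ∀ k ∈ K, ∀ v, Adj k v → lo < T v → T v < hi → v ∈ K)
    (i : Fin 4) (Q : G → Prop) (hQ1 : ∀ g, g ≤ lo → Q g) (hQ2 : ∀ g, Q g → g + T (e i) < hi) :
    (K.filter (fun k => par k = 1 - kap i ∧ Q (T k - T (e i)))).card =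
      (K.filter (fun k => par k = 1 - kap i ∧ T k ≤ lo + T (e i))).card +
      (K.filter (fun k => par k = kap i ∧ Q (T k))).card := by
  have h1 : (K.filter (fun k => par k = kap i ∧ Q (T k))).card =
      (K.filter (fun k => par k = 1 - kap i ∧ Q (T k - T (e i)) ∧ lo + T (e i) < T k)).card := by
    apply Finset.card_bij (fun k _ => k + e i)
    · intro k hk
      rw [Finset.mem_filter] at hk ⊢
      obtain ⟨hk, hp, hq⟩ := hk
      have hlo := (hK k hk).1
      refine ⟨hcl k hk _ ⟨i, Or.inl ⟨hp, rfl⟩⟩ ?_ ?_, ?_, ?_, ?_⟩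
      · rw [map_add]; exact lt_add_of_lt_of_pos hlo (hpos i)
      · rw [map_add]; exact hQ2 _ hq
      · rw [par_add_e, hp]; ring
      · rw [map_add, add_sub_cancel_right]; exact hq
      · rw [map_add]; exact add_lt_add_left hlo _
    · intro a _ b _ h
      exact add_right_cancel h
    · intro k hk
      rw [Finset.mem_filter] at hk
      obtain ⟨hk, hp, hq, hl⟩ := hk
      have hpp : par (k - e i) = kap i := by rw [par_sub_e, hp]; ring
      refine ⟨k - e i, ?_, sub_add_cancel _ _⟩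
      rw [Finset.mem_filter]
      refine ⟨hcl k hk _ ⟨i, Or.inr ⟨hpp, (sub_add_cancel _ _).symm⟩⟩ ?_ ?_, hpp, ?_⟩
      · rw [map_sub]; exact lt_sub_iff_add_lt.mpr hl
      · rw [map_sub]; exact lt_trans (sub_lt_self _ (hpos i)) (hK k hk).2
      · rw [map_sub]; exact hq
  rw [h1, ← Finset.card_union_of_disjoint]
  · congr 1
    ext k
    simp only [Finset.mem_filter, Finset.mem_union]
    constructor
    · rintro ⟨hk, hp, hq⟩
      by_cases h : T k ≤ lo + T (e i)
      · exact Or.inl ⟨hk, hp, h⟩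
      · exact Or.inr ⟨hk, hp, hq, not_le.mp h⟩
    · rintro (⟨hk, hp, h⟩ | ⟨hk, hp, hq, _⟩)
      · exact ⟨hk, hp, hQ1 _ (sub_le_iff_le_add.mpr h)⟩
      · exact ⟨hk, hp, hq⟩
  · rw [Finset.disjoint_filter]
    intro k _ h1 h2
    exact absurd h1.2 (not_le.mpr h2.2.2)

/-- the two forward neighbours of a vertex cannot be joined above it inside a finite cluster -/
theorem no_join (T : L4 →+ G) (hinj : Function.Injective T) (hpos : ∀ i, 0 < T (e i))
    (W : Set L4) (hW : ∀ u v w, u ∈ W → w ∈ W → T u ≤ T v → T v ≤ T w → v ∈ W)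
    (U : Finset L4) (hUW : ∀ u ∈ U, u ∈ W) (hcl : ∀ u ∈ U, ∀ v ∈ W, Adj u v → v ∈ U)
    (x : L4) (hx : x ∈ U) (i : Fin 4) (hp : par x = kap i) (h1 : x + e i ∈ U)
    (hr : Rch (fun v => T x < T v ∧ v ∈ U) (x + e i) (x + e (i + 2))) : False := by
  set z1 := x + e i with hz1
  set z2 := x + e (i + 2) with hz2
  have hxz1 : T x < T z1 := by rw [hz1, map_add]; exact lt_add_of_pos_right _ (hpos i)
  have hxz2 : T x < T z2 := by rw [hz2, map_add]; exact lt_add_of_pos_right _ (hpos _)
  -- minimal top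
  have hY : (U.filter (fun y => T z1 ≤ T y ∧ Rch (fun v => T x < T v ∧ T v ≤ T y) z1 z2)).Nonempty := by
    obtain ⟨y, hy, hmax⟩ := U.exists_max_image T ⟨x, hx⟩
    refine ⟨y, Finset.mem_filter.mpr ⟨hy, hmax _ h1, ?_⟩⟩
    exact hr.mono (fun v h => ⟨h.1, hmax _ h.2⟩)
  obtain ⟨y, hy, hmin⟩ := Finset.exists_min_image _ T hY
  rw [Finset.mem_filter] at hy
  obtain ⟨hyU, hy1, hry⟩ := hy
  have hy2 : T z2 ≤ T y := (hry.right ⟨hxz1, hy1⟩).2
  -- coordinates constant if the top is one of the neighbours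
  have hcoord : ∀ j, T y = T (x + e j) → z1 j = z2 j := by
    intro j hj
    apply hry.const (fun v => v j)
    intro u l _ hu hv
    by_cases hl : j = l
    · subst hl
      exfalso
      have h2 := hv.2
      rw [hj, map_add, map_add] at h2
      exact absurd (le_of_add_le_add_right h2) (not_le.mpr hu.1)
    · simp [e_ne hl]
  have hlt1 : T z1 < T y := by
    refine lt_of_le_of_ne hy1 (fun h => ?_)
    have := hcoord i h.symm
    simp [hz1, hz2, e_self, e_ne (ne_add_two i).symm] at this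
  have hlt2 : T z2 < T y := by
    refine lt_of_le_of_ne hy2 (fun h => ?_)
    have := hcoord (i + 2) h.symm
    simp [hz1, hz2, e_self, e_ne (ne_add_two i)] at this
  set K := U.filter (fun k => Rch (fun v => T x < T v ∧ T v < T y) z1 k) with hKdef
  have hK : ∀ k ∈ K, T x < T k ∧ T k < T y := by
    intro k hk
    exact (Finset.mem_filter.mp hk).2.right ⟨hxz1, hlt1⟩
  have hKcl : ∀ k ∈ K, ∀ v, Adj k v → T x < T v → T v < T y → v ∈ K := by
    intro k hk v ha h1 h2
    have hkU := (Finset.mem_filter.mp hk).1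
    refine Finset.mem_filter.mpr ⟨hcl k hkU v (hW x v y (hUW x hx) (hUW y hyU) h1.le h2.le) ha, ?_⟩
    exact Relation.ReflTransGen.tail (Finset.mem_filter.mp hk).2 ⟨ha, hK k hk, h1, h2⟩
  have hz1K : z1 ∈ K := Finset.mem_filter.mpr ⟨h1, Relation.ReflTransGen.refl⟩
  have hz2K : z2 ∉ K := by
    intro h2
    obtain ⟨y', hy', hmax⟩ := K.exists_max_image T ⟨z1, hz1K⟩
    have key : ∀ b, Rch (fun v => T x < T v ∧ T v < T y) z1 b →
        b ∈ K ∧ Rch (fun v => T x < T v ∧ T v ≤ T y') z1 b := by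
      intro b hb
      induction hb with
      | refl => exact ⟨hz1K, Relation.ReflTransGen.refl⟩
      | tail _ h ih =>
        have hc := hKcl _ ih.1 _ h.1 h.2.2.1 h.2.2.2
        exact ⟨hc, Relation.ReflTransGen.tail ih.2
          ⟨h.1, ⟨h.2.1.1, hmax _ ih.1⟩, ⟨h.2.2.1, hmax _ hc⟩⟩⟩
    have := hmin y' (Finset.mem_filter.mpr ⟨(Finset.mem_filter.mp hy').1, hmax _ hz1K,
      (key z2 (Finset.mem_filter.mp h2).2).2⟩)
    exact absurd (hK y' hy').2 (not_lt.mpr this)
  -- the cocycle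
  let om : Fin 4 → ℤ := fun j => ((K.filter (fun k => par k = 1 - kap j ∧ T k ≤ T x + T (e j))).card : ℤ)
  let Ph : L4 → ℤ := fun v => ∑ j, v j * om j
  have hPh : ∀ u j, Ph (u + e j) = Ph u + om j := by
    intro u j
    simp only [Ph, Pi.add_apply, add_mul, Finset.sum_add_distrib]
    congr 1
    rw [Finset.sum_eq_single j]
    · rw [e_self, one_mul]
    · intro b _ hb
      rw [e_ne hb, zero_mul]
    · intro h; exact absurd (Finset.mem_univ _) h
  let nle : L4 → ℤ := fun v => ((K.filter (fun k => par k = par v ∧ T k ≤ T v)).card : ℤ)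
  let nlt : L4 → ℤ := fun v => ((K.filter (fun k => par k = par v ∧ T k < T v)).card : ℤ)
  have hle : ∀ u j, par u = kap j → T x ≤ T u → T (u + e j) < T y →
      nle (u + e j) - Ph (u + e j) = nle u - Ph u := by
    intro u j hu h1 h2
    have := count_step T hpos K (T x) (T y) hK hKcl j (fun g => g ≤ T u)
      (fun g hg => le_trans hg h1)
      (fun g hg => by rw [map_add] at h2; exact lt_of_le_of_lt (add_le_add_left hg _) h2)
    have h3 : nle (u + e j) = om j + nle u := by
      simp only [nle, om]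
      rw [par_add_e, hu, map_add]
      have e1 : kap j + 1 - 2 * kap j = 1 - kap j := by ring
      rw [e1]
      simp only [sub_le_iff_le_add] at this
      rw [← Nat.cast_add]
      congr 1
      convert this
    rw [h3, hPh]; ring
  have hlt : ∀ u j, par u = kap j → T x < T u → T (u + e j) ≤ T y →
      nlt (u + e j) - Ph (u + e j) = nlt u - Ph u := by
    intro u j hu h1 h2
    have := count_step T hpos K (T x) (T y) hK hKcl j (fun g => g < T u)
      (fun g hg => lt_of_le_of_lt hg h1)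
      (fun g hg => by rw [map_add] at h2; exact lt_of_lt_of_le (add_lt_add_left hg _) h2)
    have h3 : nlt (u + e j) = om j + nlt u := by
      simp only [nlt, om]
      rw [par_add_e, hu, map_add]
      have e1 : kap j + 1 - 2 * kap j = 1 - kap j := by ring
      rw [e1]
      simp only [sub_lt_iff_lt_add] at this
      rw [← Nat.cast_add]
      congr 1
      convert this
    rw [h3, hPh]; ring
  have a1 := hle x i hp le_rfl hlt1
  have a2 := hle x (i + 2) (by rw [kap_add_two]; exact hp) le_rfl hlt2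
  have a3 := hry.const (fun v => nlt v - Ph v) (fun u j hu h1 h2 => hlt u j hu h1.1 h2.2)
  have b1 : nle z1 = nlt z1 + 1 := by
    simp only [nle, nlt]
    have : K.filter (fun k => par k = par z1 ∧ T k ≤ T z1) =
        insert z1 (K.filter (fun k => par k = par z1 ∧ T k < T z1)) := by
      ext k
      simp only [Finset.mem_filter, Finset.mem_insert]
      constructor
      · rintro ⟨hk, hp, h⟩
        rcases h.lt_or_eq with h | h
        · exact Or.inr ⟨hk, hp, h⟩
        · exact Or.inl (hinj h)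
      · rintro (rfl | ⟨hk, hp, h⟩)
        · exact ⟨hz1K, rfl, le_rfl⟩
        · exact ⟨hk, hp, h.le⟩
    rw [this, Finset.card_insert_of_notMem (by simp)]
    push_cast; ring
  have b2 : nle z2 = nlt z2 := by
    simp only [nle, nlt]
    congr 2
    ext k
    simp only [Finset.mem_filter]
    constructor
    · rintro ⟨hk, hp, h⟩
      rcases h.lt_or_eq with h | h
      · exact ⟨hk, hp, h⟩
      · exact absurd (hinj h ▸ hk) hz2K
    · rintro ⟨hk, hp, h⟩
      exact ⟨hk, hp, h.le⟩
  rw [← hz1] at a1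
  rw [← hz2] at a2
  omega

/-- finite clusters of a slab carry no nonzero even edge set -/
theorem slab (T : L4 →+ G) (hinj : Function.Injective T) (hpos : ∀ i, 0 < T (e i))
    (W : Set L4) (hW : ∀ u v w, u ∈ W → w ∈ W → T u ≤ T v → T v ≤ T w → v ∈ W)
    (U : Finset L4) (hUW : ∀ u ∈ U, u ∈ W) (hcl : ∀ u ∈ U, ∀ v ∈ W, Adj u v → v ∈ U)
    (c : L4 → Fin 4 → ZMod 2)
    (hc : ∀ u i, c u i ≠ 0 → par u = kap i ∧ u ∈ U ∧ u + e i ∈ U)
    (hev : ∀ v ∈ U, ∑ i, (c v i + c (v - e i) i) = 0) : ∀ u i, c u i = 0 := by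
  by_contra hne
  push Not at hne
  obtain ⟨u0, i0, h0⟩ := hne
  obtain ⟨x, hx, hmin⟩ := Finset.exists_min_image (U.filter (fun u => ∃ i, c u i ≠ 0)) T
    ⟨u0, Finset.mem_filter.mpr ⟨(hc u0 i0 h0).2.1, i0, h0⟩⟩
  rw [Finset.mem_filter] at hx
  obtain ⟨hxU, i, hi⟩ := hx
  have hge : ∀ u j, c u j ≠ 0 → T x ≤ T u := fun u j h =>
    hmin u (Finset.mem_filter.mpr ⟨(hc u j h).2.1, j, h⟩)
  have hp := (hc x i hi).1
  apply no_join T hinj hpos W hW U hUW hcl x hxU i hp (hc x i hi).2.2
  by_contra hno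
  set z1 := x + e i with hz1
  have hxz1 : T x < T z1 := by rw [hz1, map_add]; exact lt_add_of_pos_right _ (hpos i)
  have hz1U : z1 ∈ U := (hc x i hi).2.2
  set R := U.filter (fun k => Rch (fun v => T x < T v ∧ v ∈ U) z1 k) with hR
  have hRx : ∀ k ∈ R, T x < T k := fun k hk =>
    ((Finset.mem_filter.mp hk).2.right ⟨hxz1, hz1U⟩).1
  have hRcl : ∀ k ∈ R, ∀ v ∈ U, Adj k v → T x < T v → v ∈ R := by
    intro k hk v hv ha h
    exact Finset.mem_filter.mpr ⟨hv, Relation.ReflTransGen.tail (Finset.mem_filter.mp hk).2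
      ⟨ha, ⟨hRx k hk, (Finset.mem_filter.mp hk).1⟩, h, hv⟩⟩
  have hz1R : z1 ∈ R := Finset.mem_filter.mpr ⟨hz1U, Relation.ReflTransGen.refl⟩
  have hsum : ∑ v ∈ R, ∑ j, (c v j + c (v - e j) j) = 0 :=
    Finset.sum_eq_zero (fun v hv => hev v (Finset.mem_filter.mp hv).1)
  rw [Finset.sum_comm] at hsum
  have hj : ∀ j, ∑ v ∈ R, (c v j + c (v - e j) j) =
      ∑ u ∈ U, c u j * ((if u ∈ R then 1 else 0) + (if u + e j ∈ R then 1 else 0)) := by
    intro j
    rw [Finset.sum_add_distrib]
    simp only [mul_add, Finset.sum_add_distrib, mul_ite, mul_one, mul_zero]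
    congr 1
    · rw [← Finset.sum_filter]
      apply Finset.sum_congr _ (fun _ _ => rfl)
      ext k
      simp only [Finset.mem_filter]
      exact ⟨fun h => ⟨(Finset.mem_filter.mp h).1, h⟩, fun h => h.2⟩
    · rw [← Finset.sum_filter]
      symm
      apply Finset.sum_bij_ne_zero (fun u _ _ => u + e j)
      · intro a ha _
        exact (Finset.mem_filter.mp ha).2
      · intro a _ _ b _ _ h
        exact add_right_cancel h
      · intro b hb hb0
        refine ⟨b - e j, ?_, ?_, sub_add_cancel _ _⟩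
        · rw [Finset.mem_filter, sub_add_cancel]
          exact ⟨(hc _ _ hb0).2.1, hb⟩
        · exact hb0
      · intro a _ _
        rw [add_sub_cancel_right]
  simp only [hj] at hsum
  have hterm : ∀ j, ∀ u ∈ U, ¬ (j = i ∧ u = x) →
      c u j * ((if u ∈ R then 1 else 0) + (if u + e j ∈ R then 1 else 0)) = 0 := by
    intro j u hu hn
    by_cases h0 : c u j = 0
    · rw [h0, zero_mul]
    obtain ⟨hpu, _, huU⟩ := hc u j h0
    have hle := hge u j h0
    have hlt : T x < T (u + e j) := by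
      rw [map_add]; exact lt_add_of_le_of_pos hle (hpos j)
    by_cases hux : u = x
    · subst hux
      have hjj : j = i + 2 := by
        rcases (kap_eq_iff i j).mp (by rw [← hpu, hp]) with h | h
        · exact absurd ⟨h, rfl⟩ hn
        · exact h
      have n1 : u ∉ R := fun h => lt_irrefl _ (hRx _ h)
      have n2 : u + e j ∉ R := fun h => hno (hjj ▸ (Finset.mem_filter.mp h).2)
      simp [n1, n2]
    · have hlt' : T x < T u := lt_of_le_of_ne hle (fun h => hux (hinj h).symm)
      have : u ∈ R ↔ u + e j ∈ R :=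
        ⟨fun h => hRcl _ h _ huU ⟨j, Or.inl ⟨hpu, rfl⟩⟩ hlt,
         fun h => hRcl _ h _ hu ⟨j, Or.inr ⟨hpu, rfl⟩⟩ hlt'⟩
      by_cases h : u ∈ R
      · have h' := this.mp h
        simp only [h, h', if_true]
        have : (1 : ZMod 2) + 1 = 0 := by decide
        rw [this, mul_zero]
      · have h' : u + e j ∉ R := fun h' => h (this.mpr h')
        simp [h, h']
  rw [Finset.sum_eq_single i, Finset.sum_eq_single x] at hsum
  · have n1 : x ∉ R := fun h => lt_irrefl _ (hRx _ h)
    rw [← hz1] at hsum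
    simp [n1, hz1R] at hsum
    exact hi hsum
  · intro u hu hux
    exact hterm i u hu (fun h => hux h.2)
  · intro h; exact absurd hxU h
  · intro j _ hji
    exact Finset.sum_eq_zero (fun u hu => hterm j u hu (fun h => hji h.1))
  · intro h; exact absurd (Finset.mem_univ _) h

end cocycle

/-- wide windows have no finite cluster -/
theorem escape (t : L4 →+ ℝ) (hpos : ∀ i, 0 < t (e i)) (I : Set ℝ) (hI : I.OrdConnected) (t0 : ℝ)
    (i : Fin 4) (a : ℝ) (ha : a ∈ I) (hb : a + t (e i) + t (e (i + 1)) + t (e (i + 3)) ∈ I)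
    (U : Finset L4) (hU : ∀ u ∈ U, t0 + t u ∈ I ∧ (par u = 0 ∨ par u = 1))
    (hcl : ∀ u ∈ U, ∀ v, t0 + t v ∈ I → Adj u v → v ∈ U) : U = ∅ := by
  by_contra hne
  obtain ⟨u, hu, hmax⟩ := U.exists_max_image (fun u => u (i + 1) - u (i + 3))
    (Finset.nonempty_iff_ne_empty.mpr hne)
  obtain ⟨hui, hup⟩ := hU u hu
  have p0 := hpos i
  have p1 := hpos (i + 1)
  have p3 := hpos (i + 3)
  have n1 : i + 1 ≠ i := (fin4 i).1
  have n3 : i + 3 ≠ i := (fin4 i).2.1
  have n13 : i + 1 ≠ i + 3 := (fin4 i).2.2.1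
  have hcase : par u = kap i ∨ par u = 1 - kap i := by
    have : kap i = 0 ∨ kap i = 1 := (fin4 i).2.2.2
    omega
  rcases hcase with hp | hp
  · by_cases h : t0 + t (u - e (i + 3)) ∈ I
    · have hv := hcl u hu _ h ⟨i + 3, Or.inr ⟨by rw [par_sub_e, hp, kap_add_three]; ring,
        (sub_add_cancel _ _).symm⟩⟩
      have := hmax _ hv
      simp [e_self, e_ne n13] at this
    · rw [map_sub] at h
      have hlt : t0 + (t u - t (e (i + 3))) < a := by
        by_contra hh
        exact h (hI.out ha hui ⟨not_lt.mp hh, by linarith⟩)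
      have hv1 : u + e i ∈ U := hcl u hu _ (by
        rw [map_add]; exact hI.out hui hb ⟨by linarith, by linarith⟩) ⟨i, Or.inl ⟨hp, rfl⟩⟩
      have hv2 : u + e i + e (i + 1) ∈ U := hcl _ hv1 _ (by
        rw [map_add, map_add]; exact hI.out hui hb ⟨by linarith, by linarith⟩)
        ⟨i + 1, Or.inl ⟨by rw [par_add_e, hp, kap_add_one]; ring, rfl⟩⟩
      have := hmax _ hv2
      simp [e_self, e_ne n13.symm, e_ne n1, e_ne n3] at this
  · by_cases h : t0 + t (u + e (i + 1)) ∈ I
    · have hv := hcl u hu _ h ⟨i + 1, Or.inl ⟨by rw [hp, kap_add_one], rfl⟩⟩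
      have := hmax _ hv
      simp [e_self, e_ne n13.symm] at this
    · rw [map_add] at h
      have hlt : a + t (e i) + t (e (i + 1)) + t (e (i + 3)) < t0 + (t u + t (e (i + 1))) := by
        by_contra hh
        exact h (hI.out hui hb ⟨by linarith, not_lt.mp hh⟩)
      have q1 : par (u - e i) = kap i := by rw [par_sub_e, hp]; ring
      have hv1 : u - e i ∈ U := hcl u hu _ (by
        rw [map_sub]; exact hI.out ha hui ⟨by linarith, by linarith⟩)
        ⟨i, Or.inr ⟨q1, (sub_add_cancel _ _).symm⟩⟩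
      have hv2 : u - e i - e (i + 3) ∈ U := hcl _ hv1 _ (by
        rw [map_sub, map_sub]; exact hI.out ha hui ⟨by linarith, by linarith⟩)
        ⟨i + 3, Or.inr ⟨by rw [par_sub_e, q1, kap_add_three]; ring, (sub_add_cancel _ _).symm⟩⟩
      have := hmax _ hv2
      simp [e_self, e_ne n13, e_ne n1, e_ne n3] at this

end Pool.Agent.H256Z.TB
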