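import Mathlib
import Pool.Agent.H256Z.TB.Slab

set_option autoImplicit false

namespace Pool.Agent.H256Z.TB

open Classical

noncomputable def tm (α : Fin 4 → ℝ) : L4 →+ ℝ where
  toFun n := ∑ i, (n i : ℝ) * α i
  map_zero' := by simp
  map_add' := by intro a b; simp [add_mul, Finset.sum_add_distrib]

theorem tm_apply (α : Fin 4 → ℝ) (n : L4) :
    tm α n = n 0 * α 0 + n 1 * α 1 + n 2 * α 2 + n 3 * α 3 := by
  show ∑ i, (n i : ℝ) * α i = _
  rw [Fin.sum_univ_four]

theorem tm_e (α : Fin 4 → ℝ) (i : Fin 4) : tm α (e i) = α i := by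
  fin_cases i <;> simp [tm_apply, e]

abbrev GG := ℝ ×ₗ (ℤ ×ₗ (ℤ ×ₗ (ℤ ×ₗ ℤ)))

noncomputable def TT (α : Fin 4 → ℝ) : L4 →+ GG where
  toFun n := toLex (tm α n, toLex (n 0, toLex (n 1, toLex (n 2, n 3))))
  map_zero' := by rw [map_zero]; rfl
  map_add' := by intro a b; rw [map_add]; rfl

theorem TT_apply (α : Fin 4 → ℝ) (n : L4) :
    TT α n = toLex (tm α n, toLex (n 0, toLex (n 1, toLex (n 2, n 3)))) := rfl

theorem TT_inj (α : Fin 4 → ℝ) : Function.Injective (TT α) := by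
  intro a b h
  rw [TT_apply, TT_apply] at h
  simp only [EmbeddingLike.apply_eq_iff_eq, Prod.mk.injEq] at h
  obtain ⟨_, h0, h1, h2, h3⟩ := h
  funext i
  fin_cases i
  · exact h0
  · exact h1
  · exact h2
  · exact h3

theorem TT_le (α : Fin 4 → ℝ) {a b : L4} (h : TT α a ≤ TT α b) : tm α a ≤ tm α b := by
  rw [TT_apply, TT_apply, Prod.Lex.toLex_le_toLex] at h
  rcases h with h | h
  · exact h.le
  · exact h.1.le

theorem TT_pos (α : Fin 4 → ℝ) (hα : ∀ i, 0 < α i) (i : Fin 4) : 0 < TT α (e i) := by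
  rw [← map_zero (TT α), TT_apply, TT_apply, Prod.Lex.toLex_lt_toLex]
  left
  simp only [map_zero, tm_e]
  exact hα i

def proj (n : L4) : ℤ × ℤ := (n 0 - n 2, n 1 - n 3)

def dir (i : Fin 4) : ℤ × ℤ := ![(1, 0), (0, 1), (-1, 0), (0, -1)] i

theorem proj_add_e (n : L4) (i : Fin 4) : proj (n + e i) = proj n + dir i := by
  fin_cases i <;> simp [proj, e, dir] <;> ring

theorem proj_sub_e (n : L4) (i : Fin 4) : proj (n - e i) = proj n + dir (i + 2) := by
  fin_cases i <;> simp [proj, e, dir] <;> ring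

def gg (φ : ℤ × ℤ → ZMod 2) (v : ℤ × ℤ) (i : Fin 4) : ZMod 2 :=
  ![φ (v.1, v.2) + φ (v.1, v.2 - 1), φ (v.1, v.2) + φ (v.1 - 1, v.2),
    φ (v.1 - 1, v.2) + φ (v.1 - 1, v.2 - 1), φ (v.1, v.2 - 1) + φ (v.1 - 1, v.2 - 1)] i

theorem gg_symm (φ : ℤ × ℤ → ZMod 2) (v : ℤ × ℤ) (i : Fin 4) :
    gg φ (v + dir (i + 2)) i = gg φ v (i + 2) := by
  fin_cases i <;> simp [gg, dir, sub_eq_add_neg]

theorem gg_sum (φ : ℤ × ℤ → ZMod 2) (v : ℤ × ℤ) :
    gg φ v 0 + gg φ v 1 + gg φ v 2 + gg φ v 3 = 0 := by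
  simp only [gg, Matrix.cons_val]
  generalize φ (v.1, v.2) = a
  generalize φ (v.1, v.2 - 1) = b
  generalize φ (v.1 - 1, v.2) = c
  generalize φ (v.1 - 1, v.2 - 1) = d
  revert a b c d
  decide

theorem exists_lift (v : ℤ × ℤ) : ∃ n : L4, (par n = 0 ∨ par n = 1) ∧ proj n = v := by
  refine ⟨![v.1, (v.1 + v.2) / 2, 0, (v.1 - v.2) / 2], ?_, ?_⟩
  · simp [par]; omega
  · ext
    · simp [proj]
    · simp [proj]; omega

theorem add_two_add_two (i : Fin 4) : i + 2 + 2 = i := by revert i; decide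

theorem mono_edges (α : Fin 4 → ℝ) (hα : ∀ i, 0 < α i) (P : ℝ) (hP : P = α 0 + α 1 + α 2 + α 3)
    (t0 : ℝ) (I : Set ℝ) (hI : I.OrdConnected) (hdiam : ∀ a ∈ I, ∀ b ∈ I, b - a < P)
    (col : ℤ × ℤ → Prop)
    (hcol : ∀ n, (par n = 0 ∨ par n = 1) → (col (proj n) ↔ ∃ k : ℤ, t0 + tm α n + k * P ∈ I))
    (U : Set (ℤ × ℤ)) (hUf : U.Finite)
    (hU : ∀ v ∈ U, ∀ i, col v → col (v + dir i) → v + dir i ∈ U)
    (φ : ℤ × ℤ → ZMod 2) (hg : ∀ v i, gg φ v i ≠ 0 → v ∈ U ∧ (col v → col (v + dir i))) :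
    ∀ v i, col v → gg φ v i = 0 := by
  have hPi : ∀ i, P = α i + α (i + 1) + α (i + 2) + α (i + 3) := by
    intro i; rw [← sum_four i α, Fin.sum_univ_four, hP]
  have hP0 : 0 < P := by rw [hP]; linarith [hα 0, hα 1, hα 2, hα 3]
  have hαP : ∀ i, α i < P := by
    intro i; rw [hPi i]; linarith [hα (i + 1), hα (i + 2), hα (i + 3)]
  have hfin : {n : L4 | (par n = 0 ∨ par n = 1) ∧ t0 + tm α n ∈ I ∧ proj n ∈ U}.Finite := by
    apply Set.Finite.of_finite_image (f := proj)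
    · apply hUf.subset
      rintro _ ⟨n, hn, rfl⟩
      exact hn.2.2
    · intro a ha b hb hab
      obtain ⟨pa, ia, _⟩ := ha
      obtain ⟨pb, ib, _⟩ := hb
      simp only [proj, Prod.mk.injEq] at hab
      simp only [par] at pa pb
      obtain ⟨k, hk⟩ : ∃ k, k = b 0 - a 0 := ⟨_, rfl⟩
      have k0 : b 0 = a 0 + k := by omega
      have k1 : b 1 = a 1 + k := by omega
      have k2 : b 2 = a 2 + k := by omega
      have k3 : b 3 = a 3 + k := by omega
      have ht : tm α b = tm α a + k * P := by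
        rw [tm_apply, tm_apply, k0, k1, k2, k3, hP]; push_cast; ring
      have d1 := hdiam _ ia _ ib
      have d2 := hdiam _ ib _ ia
      have e1 : (k : ℝ) < 1 := by nlinarith
      have e2 : (-1 : ℝ) < k := by nlinarith
      have e3 : k < 1 := by exact_mod_cast e1
      have e4 : -1 < k := by exact_mod_cast e2
      have : k = 0 := by omega
      funext i
      fin_cases i
      · show a 0 = b 0
        omega
      · show a 1 = b 1
        omega
      · show a 2 = b 2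
        omega
      · show a 3 = b 3
        omega
  set V := hfin.toFinset with hV
  have hmem : ∀ n, n ∈ V ↔ (par n = 0 ∨ par n = 1) ∧ t0 + tm α n ∈ I ∧ proj n ∈ U := by
    intro n; rw [hV, Set.Finite.mem_toFinset]; rfl
  have hcolV : ∀ n, (par n = 0 ∨ par n = 1) → t0 + tm α n ∈ I → col (proj n) := by
    intro n hp hi
    exact (hcol n hp).mpr ⟨0, by simpa using hi⟩
  have hcl : ∀ u ∈ V, ∀ v, t0 + tm α v ∈ I → Adj u v → v ∈ V := by
    intro u hu v hv ha
    obtain ⟨hp, hi, hUu⟩ := (hmem u).mp hu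
    obtain ⟨j, ⟨hpj, rfl⟩ | ⟨hpj, rfl⟩⟩ := ha
    · have hp' : par (u + e j) = 0 ∨ par (u + e j) = 1 := by
        rw [par_add_e]; omega
      refine (hmem _).mpr ⟨hp', hv, ?_⟩
      have := hcolV _ hp' hv
      rw [proj_add_e] at this ⊢
      exact hU _ hUu j (hcolV _ hp hi) this
    · have hp' : par v = 0 ∨ par v = 1 := by
        have := (fin4 j).2.2.2
        omega
      refine (hmem _).mpr ⟨hp', hv, ?_⟩
      have h1 := hcolV _ hp' hv
      have h2 : proj v = proj (v + e j) + dir (j + 2) := by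
        rw [← proj_sub_e, add_sub_cancel_right]
      rw [h2] at h1 ⊢
      exact hU _ hUu _ (hcolV _ hp hi) h1
  have hlift : ∀ v ∈ U, col v → ∃ n ∈ V, proj n = v := by
    intro v hv hc
    obtain ⟨n, hp, rfl⟩ := exists_lift v
    obtain ⟨k, hk⟩ := (hcol n hp).mp hc
    have h1 : par (n + fun _ => k) = par n := by simp [par]; ring
    have h2 : proj (n + fun _ => k) = proj n := by simp [proj]
    have h3 : tm α (n + fun _ => k) = tm α n + k * P := by
      rw [tm_apply, tm_apply, hP]; simp; ring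
    refine ⟨n + fun _ => k, (hmem _).mpr ⟨by rw [h1]; exact hp, ?_, by rw [h2]; exact hv⟩, h2⟩
    rw [h3, ← add_assoc]; exact hk
  by_cases hwrap : ∃ j a, a ∈ I ∧ a + (P - α j) ∈ I
  · obtain ⟨j, a, ha, hb⟩ := hwrap
    have hE : V = ∅ := by
      apply escape (tm α) (fun i => by rw [tm_e]; exact hα i) I hI t0 (j + 2) a ha _ V
        (fun u hu => ⟨((hmem u).mp hu).2.1, ((hmem u).mp hu).1⟩) hcl
      rw [tm_e, tm_e, tm_e]
      have := hPi (j + 2)
      rw [add_two_add_two] at this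
      convert hb using 1
      linarith
    intro v i hc
    by_contra h
    obtain ⟨n, hn, _⟩ := hlift v (hg v i h).1 hc
    rw [hE] at hn
    exact absurd hn (Finset.notMem_empty _)
  push Not at hwrap
  have hfw : ∀ n ∈ V, ∀ j, par n = kap j → col (proj n + dir j) → n + e j ∈ V := by
    intro n hn j hp hc
    obtain ⟨hp0, hi, _⟩ := (hmem n).mp hn
    apply hcl n hn _ _ ⟨j, Or.inl ⟨hp, rfl⟩⟩
    rw [← proj_add_e] at hc
    obtain ⟨k, hk⟩ := (hcol _ (by rw [par_add_e]; omega)).mp hc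
    rw [map_add, tm_e] at hk ⊢
    have d1 := hdiam _ hi _ hk
    have d2 := hdiam _ hk _ hi
    have a1 := hα j
    have a2 := hαP j
    have e1 : (k : ℝ) < 1 := by nlinarith
    have e2 : (-2 : ℝ) < k := by nlinarith
    have e3 : k < 1 := by exact_mod_cast e1
    have e4 : -2 < k := by exact_mod_cast e2
    have : k = 0 ∨ k = -1 := by omega
    rcases this with rfl | rfl
    · simpa using hk
    · exfalso
      apply hwrap j _ hk
      convert hi using 1
      push_cast; ring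
  have hbw : ∀ n ∈ V, ∀ j, par n = 1 - kap j → col (proj n + dir (j + 2)) → n - e j ∈ V := by
    intro n hn j hp hc
    obtain ⟨hp0, hi, _⟩ := (hmem n).mp hn
    have hq : par (n - e j) = kap j := by rw [par_sub_e, hp]; ring
    apply hcl n hn _ _ ⟨j, Or.inr ⟨hq, (sub_add_cancel _ _).symm⟩⟩
    rw [← proj_sub_e] at hc
    obtain ⟨k, hk⟩ := (hcol _ (by rw [hq]; exact (fin4 j).2.2.2)).mp hc
    rw [map_sub, tm_e] at hk ⊢
    have d1 := hdiam _ hi _ hk
    have d2 := hdiam _ hk _ hi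
    have a1 := hα j
    have a2 := hαP j
    have e1 : (k : ℝ) < 2 := by nlinarith
    have e2 : (-1 : ℝ) < k := by nlinarith
    have e3 : k < 2 := by exact_mod_cast e1
    have e4 : -1 < k := by exact_mod_cast e2
    have : k = 0 ∨ k = 1 := by omega
    rcases this with rfl | rfl
    · simpa using hk
    · exfalso
      apply hwrap j _ hi
      convert hk using 1
      push_cast; ring
  let c : L4 → Fin 4 → ZMod 2 := fun n i =>
    if par n = kap i ∧ n ∈ V ∧ n + e i ∈ V then gg φ (proj n) i else 0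
  have c1 : ∀ n ∈ V, ∀ j, c n j = if par n = kap j then gg φ (proj n) j else 0 := by
    intro n hn j
    obtain ⟨hp0, hi, _⟩ := (hmem n).mp hn
    simp only [c]
    by_cases hp : par n = kap j
    · rw [if_pos hp]
      by_cases h0 : gg φ (proj n) j = 0
      · rw [h0]; simp
      · rw [if_pos ⟨hp, hn, hfw n hn j hp ((hg _ _ h0).2 (hcolV n hp0 hi))⟩]
    · rw [if_neg hp, if_neg (fun h => hp h.1)]
  have c2 : ∀ n ∈ V, ∀ j, c (n - e j) j =
      if par n = 1 - kap j then gg φ (proj n) (j + 2) else 0 := by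
    intro n hn j
    obtain ⟨hp0, hi, _⟩ := (hmem n).mp hn
    simp only [c]
    rw [proj_sub_e, gg_symm, sub_add_cancel, par_sub_e]
    by_cases hp : par n = 1 - kap j
    · rw [if_pos hp]
      by_cases h0 : gg φ (proj n) (j + 2) = 0
      · rw [h0]; simp
      · rw [if_pos ⟨by rw [hp]; ring, hbw n hn j hp ((hg _ _ h0).2 (hcolV n hp0 hi)), hn⟩]
    · rw [if_neg hp, if_neg (fun h => hp (by linarith [h.1]))]
  have hz := slab (TT α) (TT_inj α) (TT_pos α hα) {n | t0 + tm α n ∈ I}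
    (fun u v w hu hw h1 h2 => hI.out hu hw ⟨by linarith [TT_le α h1], by linarith [TT_le α h2]⟩)
    V (fun u hu => ((hmem u).mp hu).2.1) (fun u hu v hv ha => hcl u hu v hv ha) c
    (fun u i h => by
      by_contra hn
      exact h (if_neg hn))
    (fun v hv => by
      simp only [c1 v hv, c2 v hv]
      have hs := gg_sum φ (proj v)
      rw [Fin.sum_univ_four]
      rcases ((hmem v).mp hv).1 with hp | hp
      · rw [hp]
        simp only [kap, Matrix.cons_val]
        norm_num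
        have e1 : (1 : Fin 4) + 2 = 3 := rfl
        have e2 : (3 : Fin 4) + 2 = 1 := rfl
        rw [e1, e2]
        linear_combination hs
      · rw [hp]
        simp only [kap, Matrix.cons_val]
        norm_num
        have e1 : (2 : Fin 4) + 2 = 0 := rfl
        rw [e1]
        linear_combination hs)
  intro v i hc
  by_contra h
  obtain ⟨n, hn, rfl⟩ := hlift v (hg v i h).1 hc
  by_cases hp : par n = kap i
  · have := c1 n hn i
    rw [hz, if_pos hp] at this
    exact h this.symm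
  · have := c2 n hn (i + 2)
    have h1 := ((hmem n).mp hn).1
    have h2 := (fin4 i).2.2.2
    rw [hz, if_pos (by rw [kap_add_two]; omega), add_two_add_two] at this
    exact h this.symm

theorem grid_final (α : Fin 4 → ℝ) (hα : ∀ i, 0 < α i) (P : ℝ) (hP : P = α 0 + α 1 + α 2 + α 3)
    (t0 : ℝ) (I₁ I₂ : Set ℝ) (hI₁ : I₁.OrdConnected) (hI₂ : I₂.OrdConnected)
    (hd₁ : ∀ a ∈ I₁, ∀ b ∈ I₁, b - a < P) (hd₂ : ∀ a ∈ I₂, ∀ b ∈ I₂, b - a < P)
    (col : ℤ × ℤ → Prop)
    (hc₁ : ∀ n, (par n = 0 ∨ par n = 1) → (col (proj n) ↔ ∃ k : ℤ, t0 + tm α n + k * P ∈ I₁))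
    (hc₂ : ∀ n, (par n = 0 ∨ par n = 1) → (¬ col (proj n) ↔ ∃ k : ℤ, t0 + tm α n + k * P ∈ I₂))
    (U : Set (ℤ × ℤ)) (hUf : U.Finite) (F EH EV : ℤ → ℤ → Prop)
    (h1H : ∀ i j, ¬ EH i j → ((i, j) ∈ U ↔ (i + 1, j) ∈ U))
    (h1V : ∀ i j, ¬ EV i j → ((i, j) ∈ U ↔ (i, j + 1) ∈ U))
    (h2H : ∀ i j, EH i j → ¬ (col (i, j) ↔ col (i + 1, j)) ∧ F i j ∧ F i (j - 1))
    (h2V : ∀ i j, EV i j → ¬ (col (i, j) ↔ col (i, j + 1)) ∧ F i j ∧ F (i - 1) j)
    (h3 : ∀ i j, F i j →
      (¬ (col (i, j) ↔ col (i + 1, j)) → EH i j) ∧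
      (¬ (col (i, j + 1) ↔ col (i + 1, j + 1)) → EH i (j + 1)) ∧
      (¬ (col (i, j) ↔ col (i, j + 1)) → EV i j) ∧
      (¬ (col (i + 1, j) ↔ col (i + 1, j + 1)) → EV (i + 1) j))
    (a b : ℤ) (hF : ¬ F a b) (hab : (a, b) ∈ U) : False := by
  let φ : ℤ × ℤ → ZMod 2 := fun f => if ¬ F f.1 f.2 ∧ f ∈ U then 1 else 0
  have hside : ∀ i j, ¬ F i j → ¬ EH i j ∧ ¬ EH i (j + 1) ∧ ¬ EV i j ∧ ¬ EV (i + 1) j := by
    intro i j h
    refine ⟨fun h' => h (h2H _ _ h').2.1, fun h' => h ?_, fun h' => h (h2V _ _ h').2.1,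
      fun h' => h ?_⟩
    · have := (h2H _ _ h').2.2
      rwa [add_sub_cancel_right] at this
    · have := (h2V _ _ h').2.2
      rwa [add_sub_cancel_right] at this
  have hxor : ∀ f g : ℤ × ℤ, φ f + φ g ≠ 0 →
      ((¬ F f.1 f.2 ∧ f ∈ U) ∧ ¬ (¬ F g.1 g.2 ∧ g ∈ U)) ∨
      (¬ (¬ F f.1 f.2 ∧ f ∈ U) ∧ (¬ F g.1 g.2 ∧ g ∈ U)) := by
    intro f g h
    simp only [φ] at h
    by_cases h1 : ¬ F f.1 f.2 ∧ f ∈ U
    · by_cases h2 : ¬ F g.1 g.2 ∧ g ∈ U
      · rw [if_pos h1, if_pos h2] at h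
        exact absurd (by decide) h
      · exact Or.inl ⟨h1, h2⟩
    · by_cases h2 : ¬ F g.1 g.2 ∧ g ∈ U
      · exact Or.inr ⟨h1, h2⟩
      · rw [if_neg h1, if_neg h2] at h
        exact absurd (by decide) h
  have hH : ∀ i j, φ (i, j + 1) + φ (i, j) ≠ 0 →
      (i, j + 1) ∈ U ∧ (i + 1, j + 1) ∈ U ∧ (col (i, j + 1) ↔ col (i + 1, j + 1)) := by
    intro i j h
    rcases hxor _ _ h with ⟨⟨f1, m1⟩, h2⟩ | ⟨h2, f1, m1⟩
    · have s := hside i (j + 1) f1
      refine ⟨m1, (h1H _ _ s.1).mp m1, ?_⟩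
      by_contra hn
      by_cases f2 : F i j
      · exact s.1 ((h3 i j f2).2.1 hn)
      · exact h2 ⟨f2, (h1V _ _ (hside i j f2).2.2.1).mpr m1⟩
    · have s := hside i j f1
      have m2 := (h1V _ _ s.2.2.1).mp m1
      refine ⟨m2, (h1H _ _ s.2.1).mp m2, ?_⟩
      by_contra hn
      by_cases f2 : F i (j + 1)
      · exact s.2.1 ((h3 _ _ f2).1 hn)
      · exact h2 ⟨f2, m2⟩
  have hVv : ∀ i j, φ (i + 1, j) + φ (i, j) ≠ 0 →
      (i + 1, j) ∈ U ∧ (i + 1, j + 1) ∈ U ∧ (col (i + 1, j) ↔ col (i + 1, j + 1)) := by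
    intro i j h
    rcases hxor _ _ h with ⟨⟨f1, m1⟩, h2⟩ | ⟨h2, f1, m1⟩
    · have s := hside (i + 1) j f1
      refine ⟨m1, (h1V _ _ s.2.2.1).mp m1, ?_⟩
      by_contra hn
      by_cases f2 : F i j
      · exact s.2.2.1 ((h3 i j f2).2.2.2 hn)
      · exact h2 ⟨f2, (h1H _ _ (hside i j f2).1).mpr m1⟩
    · have s := hside i j f1
      have m2 := (h1H _ _ s.1).mp m1
      refine ⟨m2, (h1V _ _ s.2.2.2).mp m2, ?_⟩
      by_contra hn
      by_cases f2 : F (i + 1) j
      · exact s.2.2.2 ((h3 _ _ f2).2.2.1 hn)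
      · exact h2 ⟨f2, m2⟩
  have hg : ∀ v i, gg φ v i ≠ 0 → v ∈ U ∧ (col v ↔ col (v + dir i)) := by
    rintro ⟨x, y⟩ i h
    fin_cases i
    · have := hH x (y - 1) (by simpa [gg] using h)
      simp only [sub_add_cancel] at this
      simpa [dir] using ⟨this.1, this.2.2⟩
    · have := hVv (x - 1) y (by simpa [gg] using h)
      simp only [sub_add_cancel] at this
      simpa [dir] using ⟨this.1, this.2.2⟩
    · have := hH (x - 1) (y - 1) (by simpa [gg] using h)
      simp only [sub_add_cancel] at this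
      simpa [dir, sub_eq_add_neg] using ⟨this.2.1, this.2.2.symm⟩
    · have := hVv (x - 1) (y - 1) (by simpa [gg] using h)
      simp only [sub_add_cancel] at this
      simpa [dir, sub_eq_add_neg] using ⟨this.2.1, this.2.2.symm⟩
  have hU : ∀ v ∈ U, ∀ i, (col v ↔ col (v + dir i)) → v + dir i ∈ U := by
    rintro ⟨x, y⟩ hv i h
    fin_cases i
    · have h' : col (x, y) ↔ col (x + 1, y) := by simpa [dir] using h
      simpa [dir] using (h1H x y (fun h'' => (h2H _ _ h'').1 h')).mp hv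
    · have h' : col (x, y) ↔ col (x, y + 1) := by simpa [dir] using h
      simpa [dir] using (h1V x y (fun h'' => (h2V _ _ h'').1 h')).mp hv
    · have h' : col (x - 1, y) ↔ col (x - 1 + 1, y) := by
        simpa [dir, sub_eq_add_neg] using h.symm
      have := (h1H (x - 1) y (fun h'' => (h2H _ _ h'').1 h')).mpr (by simpa using hv)
      simpa [dir, sub_eq_add_neg] using this
    · have h' : col (x, y - 1) ↔ col (x, y - 1 + 1) := by
        simpa [dir, sub_eq_add_neg] using h.symm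
      have := (h1V x (y - 1) (fun h'' => (h2V _ _ h'').1 h')).mpr (by simpa using hv)
      simpa [dir, sub_eq_add_neg] using this
  have z1 := mono_edges α hα P hP t0 I₁ hI₁ hd₁ col hc₁ U hUf
    (fun v hv i h1 h2 => hU v hv i ⟨fun _ => h2, fun _ => h1⟩) φ
    (fun v i h => ⟨(hg v i h).1, (hg v i h).2.mp⟩)
  have z2 := mono_edges α hα P hP t0 I₂ hI₂ hd₂ (fun v => ¬ col v) hc₂ U hUf
    (fun v hv i h1 h2 => hU v hv i ⟨fun h => absurd h h1, fun h => absurd h h2⟩) φ
    (fun v i h => ⟨(hg v i h).1, fun h1 h2 => h1 ((hg v i h).2.mpr h2)⟩)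
  have z : ∀ v i, gg φ v i = 0 := by
    intro v i
    by_cases h : col v
    · exact z1 v i h
    · exact z2 v i h
  have hall : ∀ N : ℕ, φ (a + N, b) = 1 := by
    intro N
    induction N with
    | zero => simp [φ, hF, hab]
    | succ N ih =>
      have := z (a + N + 1, b) 1
      simp only [gg, Matrix.cons_val, add_sub_cancel_right] at this
      rw [ih] at this
      push_cast
      rw [← add_assoc]
      generalize φ (a + N + 1, b) = q at this
      revert q
      decide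
  apply Set.infinite_of_injective_forall_mem (f := fun N : ℕ => ((a + N, b) : ℤ × ℤ)) _ _ hUf
  · intro x y h
    simpa using h
  · intro N
    have := hall N
    simp only [φ] at this
    by_contra hn
    rw [if_neg (fun h => hn h.2)] at this
    exact absurd this (by decide)

end Pool.Agent.H256Z.TB
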