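import Mathlib
import Pool.Agent.H256Z.TB.Dyn
import Pool.Agent.H256Z.TB.Grid

set_option autoImplicit false

namespace Pool.Agent.H256Z.TB

open ComplexConjugate Real

theorem win (β : ℝ) (h0 : 0 < β) (h1 : β < π) (τ : ℝ) :
    (cos β < cos τ ↔ ∃ k : ℤ, τ + k * (2 * π) ∈ Set.Ioo (-β) β) ∧
    (¬ cos β < cos τ ↔ ∃ k : ℤ, τ + k * (2 * π) ∈ Set.Icc β (2 * π - β)) := by
  have a1 : (∃ k : ℤ, τ + k * (2 * π) ∈ Set.Ioo (-β) β) → cos β < cos τ := by
    rintro ⟨k, hk1, hk2⟩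
    rw [← cos_add_int_mul_two_pi τ k, ← cos_abs (τ + _)]
    exact cos_lt_cos_of_nonneg_of_le_pi (abs_nonneg _) h1.le (abs_lt.mpr ⟨hk1, hk2⟩)
  have a2 : (∃ k : ℤ, τ + k * (2 * π) ∈ Set.Icc β (2 * π - β)) → ¬ cos β < cos τ := by
    rintro ⟨k, hk1, hk2⟩
    rw [← cos_add_int_mul_two_pi τ k, not_lt]
    by_cases h : τ + k * (2 * π) ≤ π
    · exact cos_le_cos_of_nonneg_of_le_pi h0.le h hk1
    · rw [← cos_two_pi_sub (τ + _)]
      exact cos_le_cos_of_nonneg_of_le_pi h0.le (by linarith) (by linarith)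
  have a3 : (∃ k : ℤ, τ + k * (2 * π) ∈ Set.Ioo (-β) β) ∨
      (∃ k : ℤ, τ + k * (2 * π) ∈ Set.Icc β (2 * π - β)) := by
    have hp : 0 < 2 * π := by positivity
    have hm := toIocMod_mem_Ioc hp (-β) τ
    have he : toIocMod hp (-β) τ = τ + ((-toIocDiv hp (-β) τ : ℤ) : ℝ) * (2 * π) := by
      rw [toIocMod, zsmul_eq_mul]; push_cast; ring
    rw [he] at hm
    by_cases h : τ + ((-toIocDiv hp (-β) τ : ℤ) : ℝ) * (2 * π) < β
    · exact Or.inl ⟨_, hm.1, h⟩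
    · exact Or.inr ⟨_, not_lt.mp h, by linarith [hm.2]⟩
  refine ⟨⟨fun h => ?_, a1⟩, ⟨fun h => ?_, a2⟩⟩
  · exact a3.resolve_right (fun h' => a2 h' h)
  · exact a3.resolve_left (fun h' => h (a1 h'))

noncomputable def Ex (θ : ℝ) : ℂ := Complex.exp (θ * Complex.I)

theorem Ex_add (a b : ℝ) : Ex (a + b) = Ex a * Ex b := by
  simp only [Ex]; rw [← Complex.exp_add]; congr 1; push_cast; ring

theorem Ex_conj (a : ℝ) : conj (Ex a) = Ex (-a) := by
  simp only [Ex]; rw [← Complex.exp_conj]; congr 1; simp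

theorem Ex_ne (a : ℝ) : Ex a ≠ 0 := Complex.exp_ne_zero _

theorem Ex_im (a : ℝ) : (Ex a).im = sin a := Complex.exp_ofReal_mul_I_im a

theorem Ex_per (a : ℝ) (k : ℤ) : Ex (a + k * (2 * π)) = Ex a := by
  rw [Ex_add]
  have : Ex (k * (2 * π)) = 1 := by
    simp only [Ex]
    rw [← Complex.exp_int_mul_two_pi_mul_I k]
    congr 1; push_cast; ring
  rw [this, mul_one]

theorem polar (z : ℂ) : z = (‖z‖ : ℝ) * Ex z.arg := (Complex.norm_mul_exp_arg_mul_I z).symm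

theorem polar' (z : ℂ) (θ : ℝ) : ∃ β, 0 ≤ β ∧ β < 2 * π ∧ z = (‖z‖ : ℝ) * Ex (θ + β) := by
  have hp : 0 < 2 * π := by positivity
  have hm := toIcoMod_mem_Ico hp 0 (z.arg - θ)
  refine ⟨_, hm.1, by simpa using hm.2, ?_⟩
  have he : θ + toIcoMod hp 0 (z.arg - θ) =
      z.arg + ((-toIcoDiv hp 0 (z.arg - θ) : ℤ) : ℝ) * (2 * π) := by
    rw [toIcoMod, zsmul_eq_mul]; push_cast; ring
  rw [he, Ex_per]
  exact polar z

theorem trig (β γ : ℝ) (b0 : 0 ≤ β) (b1 : β < 2 * π) (c0 : 0 ≤ γ) (c1 : γ < 2 * π)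
    (h : 0 < sin β + sin (γ - β) - sin γ) : 0 < β ∧ β < γ := by
  have id : sin β + sin (γ - β) - sin γ =
      4 * sin (β / 2) * sin ((γ - β) / 2) * sin (γ / 2) := by
    obtain ⟨x, hx⟩ : ∃ x, x = β / 2 := ⟨_, rfl⟩
    obtain ⟨y, hy⟩ : ∃ y, y = (γ - β) / 2 := ⟨_, rfl⟩
    have e1 : β = 2 * x := by linarith
    have e2 : γ - β = 2 * y := by linarith
    have e3 : γ = 2 * (x + y) := by linarith
    have e4 : γ / 2 = x + y := by linarith
    rw [← hx, ← hy, e4, e2]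
    conv_lhs => rw [e1, e3]
    rw [sin_two_mul, sin_two_mul, sin_two_mul, sin_add, cos_add]
    linear_combination (-2 * sin x * cos x) * sin_sq_add_cos_sq y +
      (-2 * sin y * cos y) * sin_sq_add_cos_sq x
  constructor
  · refine lt_of_le_of_ne b0 (fun hb => ?_)
    rw [← hb] at h
    simp at h
  · by_contra hh
    push Not at hh
    have s1 : 0 ≤ sin (β / 2) := sin_nonneg_of_nonneg_of_le_pi (by linarith) (by linarith)
    have s2 : 0 ≤ sin (γ / 2) := sin_nonneg_of_nonneg_of_le_pi (by linarith) (by linarith)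
    have s3 : sin ((γ - β) / 2) ≤ 0 := sin_nonpos_of_nonpos_of_neg_pi_le (by linarith) (by linarith)
    rw [id] at h
    nlinarith [mul_nonneg s1 s2]

theorem im_conj_Ex (r s a b : ℝ) :
    (conj ((r : ℂ) * Ex a) * ((s : ℂ) * Ex b)).im = r * s * sin (b - a) := by
  have : conj ((r : ℂ) * Ex a) * ((s : ℂ) * Ex b) = ((r * s : ℝ) : ℂ) * Ex (b - a) := by
    rw [map_mul, Ex_conj, Complex.conj_ofReal, sub_eq_add_neg, Ex_add]; push_cast; ring
  rw [this, Complex.im_ofReal_mul, Ex_im]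

theorem angles (a b c d : ℂ) (r : ℝ) (ha : ‖a‖ = r) (hb : ‖b‖ = r) (hc : ‖c‖ = r) (hd : ‖d‖ = r)
    (h1 : 0 < (conj (b - a) * (c - b)).im) (h3 : 0 < (conj (d - c) * (a - d)).im) :
    0 < r ∧ ∃ (θ : ℝ) (α : Fin 4 → ℝ), (∀ i, 0 < α i) ∧ 2 * π = α 0 + α 1 + α 2 + α 3 ∧
      a = r * Ex θ ∧ b = r * Ex (θ + α 0) ∧ c = r * Ex (θ + α 0 + α 1) ∧
      d = r * Ex (θ - α 3) := by
  have ea := polar a
  obtain ⟨β, b0, b1, eb⟩ := polar' b a.arg
  obtain ⟨γ, c0, c1, ec⟩ := polar' c a.arg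
  obtain ⟨δ, d0, d1, ed⟩ := polar' d a.arg
  rw [ha] at ea
  rw [hb] at eb
  rw [hc] at ec
  rw [hd] at ed
  generalize a.arg = θ at *
  have f1 : (conj (b - a) * (c - b)).im = r * r * (sin β + sin (γ - β) - sin γ) := by
    have : conj (b - a) * (c - b) = conj b * c - conj b * b - conj a * c + conj a * b := by
      rw [map_sub]; ring
    rw [this, Complex.add_im, Complex.sub_im, Complex.sub_im, ea, eb, ec]
    simp only [im_conj_Ex]
    simp; ring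
  have f3 : (conj (d - c) * (a - d)).im = r * r * (sin γ + sin (δ - γ) - sin δ) := by
    have : conj (d - c) * (a - d) = conj d * a - conj d * d - conj c * a + conj c * d := by
      rw [map_sub]; ring
    rw [this, Complex.add_im, Complex.sub_im, Complex.sub_im, ea, ed, ec]
    simp only [im_conj_Ex]
    simp; ring
  have r0 : 0 ≤ r := ha ▸ norm_nonneg a
  have r1 : 0 < r := by
    refine lt_of_le_of_ne r0 (fun h => ?_)
    rw [f1, ← h] at h1
    simp at h1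
  rw [f1] at h1
  rw [f3] at h3
  obtain ⟨t1, t2⟩ := trig β γ b0 b1 c0 c1 ((mul_pos_iff_of_pos_left (by positivity)).mp h1)
  obtain ⟨_, t3⟩ := trig γ δ c0 c1 d0 d1 ((mul_pos_iff_of_pos_left (by positivity)).mp h3)
  refine ⟨r1, θ, ![β, γ - β, δ - γ, 2 * π - δ], ?_, ?_, ea, eb, ?_, ?_⟩
  · intro i
    fin_cases i <;> simp <;> linarith
  · simp
  · rw [ec]; congr 2; simp
  · rw [ed, ← Ex_per _ (-1)]; congr 2; simp; ring

noncomputable def th (θ : ℝ) (α : Fin 4 → ℝ) (i j : ℤ) : ℝ :=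
  θ + (((i + j) / 2 : ℤ) : ℝ) * (α 0 + α 1) + (((i - j) / 2 : ℤ) : ℝ) * (α 0 + α 3) +
    (((i + j) % 2 : ℤ) : ℝ) * α 0

theorem th_ev (θ : ℝ) (α : Fin 4 → ℝ) {i j : ℤ} (m k : ℤ) (h1 : i = m + k) (h2 : j = m - k) :
    th θ α i j = θ + m * (α 0 + α 1) + k * (α 0 + α 3) := by
  have a : (i + j) / 2 = m := by omega
  have b : (i - j) / 2 = k := by omega
  have c : (i + j) % 2 = 0 := by omega
  simp [th, a, b, c]

theorem th_od (θ : ℝ) (α : Fin 4 → ℝ) {i j : ℤ} (m k : ℤ) (h1 : i = m + k + 1) (h2 : j = m - k) :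
    th θ α i j = θ + m * (α 0 + α 1) + k * (α 0 + α 3) + α 0 := by
  have a : (i + j) / 2 = m := by omega
  have b : (i - j) / 2 = k := by omega
  have c : (i + j) % 2 = 1 := by omega
  simp [th, a, b, c]

theorem th_proj (θ : ℝ) (α : Fin 4 → ℝ) (hP : 2 * π = α 0 + α 1 + α 2 + α 3) (n : L4)
    (hp : par n = 0 ∨ par n = 1) :
    th θ α (proj n).1 (proj n).2 = θ + tm α n + ((-n 2 : ℤ) : ℝ) * (2 * π) := by
  simp only [par] at hp
  rw [hP, tm_apply]
  rcases hp with hp | hp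
  · rw [th_ev θ α (n 0 - n 3) (n 0 - n 1) (by simp only [proj]; omega) (by simp only [proj]; omega)]
    have : n 2 = n 1 + n 3 - n 0 := by omega
    rw [this]; push_cast; ring
  · rw [th_od θ α (n 0 - n 3 - 1) (n 0 - n 1 - 1) (by simp only [proj]; omega)
      (by simp only [proj]; omega)]
    have : n 2 = n 1 + n 3 - n 0 + 1 := by omega
    rw [this]; push_cast; ring

namespace Qd

variable (q : Qd)

theorem pt_shift (a b : ℝ) (m k : ℝ) : q.pt (m + a) (k + b) = q.pt a b + (m * q.u + k * q.v) := by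
  simp only [pt]; push_cast; ring

theorem fold (c : ℂ) (r θ : ℝ) (α : Fin 4 → ℝ) (hA : q.A - c = r * Ex θ)
    (hB : q.pt q.x q.y - c = r * Ex (θ + α 0)) (hC : q.A + q.u - c = r * Ex (θ + α 0 + α 1))
    (hD : q.pt q.x q.y - q.v - c = r * Ex (θ - α 3)) (i j : ℤ) :
    ∃ ω β : ℂ, ω ≠ 0 ∧ ω * lin i j (q.pos i j) + β = r * Ex (th θ α i j) ∧
      ω * lin i j (q.pos (i + 1) j) + β = r * Ex (th θ α (i + 1) j) ∧
      ω * lin i j (q.pos (i + 1) (j + 1)) + β = r * Ex (th θ α (i + 1) (j + 1)) ∧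
      ω * lin i j (q.pos i (j + 1)) + β = r * Ex (th θ α i (j + 1)) := by
  rcases par_cases i j with ⟨m, k, h1, h2⟩ | ⟨m, k, h1, h2⟩
  · have hp : (i + j) % 2 = 0 := by omega
    have key : ∀ (z : ℂ) (φ ψ : ℝ), z - (m * q.u + k * q.v) - c = r * Ex φ →
        ψ = φ + (m * (α 0 + α 1) + k * (α 0 + α 3)) →
        Ex (m * (α 0 + α 1) + k * (α 0 + α 3)) * lin i j z +
          -(Ex (m * (α 0 + α 1) + k * (α 0 + α 3)) * (m * q.u + k * q.v + c)) = r * Ex ψ := by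
      intro z φ ψ hz hψ
      rw [hψ, Ex_add φ, lin, if_pos hp]
      linear_combination Ex (m * (α 0 + α 1) + k * (α 0 + α 3)) * hz
    refine ⟨_, _, Ex_ne _, key _ θ _ ?_ ?_, key _ (θ + α 0) _ ?_ ?_, key _ (θ + α 0 + α 1) _ ?_ ?_,
      key _ (θ - α 3) _ ?_ ?_⟩
    · rw [q.pos_ev m k h1 h2, ← hA]; simp only [pt]; push_cast; ring
    · rw [th_ev θ α m k h1 h2]; ring
    · rw [q.pos_od m k (by omega) h2, ← hB]; simp only [pt]; push_cast; ring
    · rw [th_od θ α m k (by omega) h2]; ring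
    · rw [q.pos_ev (i := i + 1) (j := j + 1) (m + 1) k (by omega) (by omega), ← hC]
      simp only [pt]; push_cast; ring
    · rw [th_ev θ α (i := i + 1) (j := j + 1) (m + 1) k (by omega) (by omega)]; push_cast; ring
    · rw [q.pos_od (i := i) (j := j + 1) m (k - 1) (by omega) (by omega), ← hD]
      simp only [pt]; push_cast; ring
    · rw [th_od θ α (i := i) (j := j + 1) m (k - 1) (by omega) (by omega)]; push_cast; ring
  · have hp : ¬ (i + j) % 2 = 0 := by omega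
    obtain ⟨σ, hσ⟩ : ∃ σ : ℝ, σ = m * (α 0 + α 1) + k * (α 0 + α 3) + 2 * θ + 2 * α 0 + α 1 :=
      ⟨_, rfl⟩
    obtain ⟨T, hT⟩ : ∃ T : ℂ, T = q.pt q.x q.y + (q.A + q.u) + (m * q.u + k * q.v) - c := ⟨_, rfl⟩
    have key : ∀ (z : ℂ) (φ ψ : ℝ), T - z = r * Ex φ → ψ = σ + -φ →
        -Ex σ * lin i j z + Ex σ * conj T = r * Ex ψ := by
      intro z φ ψ hz hψ
      have h3 := congrArg conj hz
      rw [map_sub, map_mul, Ex_conj, Complex.conj_ofReal] at h3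
      rw [hψ, Ex_add σ, lin, if_neg hp]
      linear_combination Ex σ * h3
    refine ⟨_, _, neg_ne_zero.mpr (Ex_ne σ), key _ (θ + α 0 + α 1) _ ?_ ?_, key _ (θ - α 3) _ ?_ ?_,
      key _ θ _ ?_ ?_, key _ (θ + α 0) _ ?_ ?_⟩
    · rw [q.pos_od m k h1 h2, ← hC, hT]; simp only [pt]; push_cast; ring
    · rw [th_od θ α m k h1 h2, hσ]; ring
    · rw [q.pos_ev (i := i + 1) (j := j) (m + 1) (k + 1) (by omega) (by omega), ← hD, hT]
      simp only [pt]; push_cast; ring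
    · rw [th_ev θ α (i := i + 1) (j := j) (m + 1) (k + 1) (by omega) (by omega), hσ]
      push_cast; ring
    · rw [q.pos_od (i := i + 1) (j := j + 1) (m + 1) k (by omega) (by omega), ← hA, hT]
      simp only [pt]; push_cast; ring
    · rw [th_od θ α (i := i + 1) (j := j + 1) (m + 1) k (by omega) (by omega), hσ]
      push_cast; ring
    · rw [q.pos_ev (i := i) (j := j + 1) (m + 1) k (by omega) (by omega), ← hB, hT]
      simp only [pt]; push_cast; ring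
    · rw [th_ev θ α (i := i) (j := j + 1) (m + 1) k (by omega) (by omega), hσ]
      push_cast; ring

theorem core (c : ℂ) (r θ : ℝ) (hr : 0 < r) (α : Fin 4 → ℝ) (hα : ∀ i, 0 < α i)
    (hP : 2 * π = α 0 + α 1 + α 2 + α 3) (hA : q.A - c = r * Ex θ)
    (hB : q.pt q.x q.y - c = r * Ex (θ + α 0)) (hC : q.A + q.u - c = r * Ex (θ + α 0 + α 1))
    (hD : q.pt q.x q.y - q.v - c = r * Ex (θ - α 3))
    (N : ℕ) (hN : 0 < N) (p : ℕ → ℂ) (hper : ∀ i, p (i + N) = p i)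
    (hseg : ∀ n, ∃ i j, openSegment ℝ (p n) (p (n + 1)) ⊆ interior (q.tile i j))
    (hedge : ∀ n, ∃ i j i' j', Adjc i j i' j' ∧ p (n + 1) ∈ openSegment ℝ (q.pos i j) (q.pos i' j') ∧
      ∃ l : ℝ, 0 < l ∧ (p (n + 2) - p (n + 1)) * conj (q.pos i' j' - q.pos i j) =
        (l : ℂ) * (-((q.pos i' j' - q.pos i j) * conj (p (n + 1) - p n))))
    (a b : ℤ) : ¬ (q.tile a b ⊆ {z : ℂ | z ∉ (⋃ i : ℕ, segment ℝ (p i) (p (i + 1))) ∧
      Bornology.IsBounded (connectedComponentIn (⋃ i : ℕ, segment ℝ (p i) (p (i + 1)))ᶜ z)}) := by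
  intro hsub
  obtain ⟨w, κ, hw, hE, hdiag⟩ := q.dyn (fun i j => r * Ex (th θ α i j))
    (q.fold c r θ α hA hB hC hD) p hseg hedge
  set Γ := ⋃ i : ℕ, segment ℝ (p i) (p (i + 1)) with hΓ
  have hprev : ∀ n, ∃ m, p (m + 1) = p n := fun n =>
    ⟨n + (N - 1), by rw [← hper n]; congr 1; omega⟩
  set ρ : ℝ := ‖w‖ * r with hρ
  have hρ0 : 0 < ρ := mul_pos (norm_pos_iff.mpr hw) hr
  have hH : ∀ i j, (conj w * ((r : ℂ) * Ex (th θ α i j))).im =
      ρ * cos (th θ α i j - w.arg - π / 2) := by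
    intro i j
    conv_lhs => rw [polar w]
    rw [im_conj_Ex, cos_sub_pi_div_two]
  simp only [hH] at hE hdiag
  have hk : -1 < κ / ρ ∧ κ / ρ < 1 := by
    obtain ⟨i, j, i', j', ha, hz, _⟩ := hedge 0
    have h1 := (hE 0 i j i' j' ha hz).1
    have c1 := neg_one_le_cos (th θ α i j - w.arg - π / 2)
    have c2 := cos_le_one (th θ α i j - w.arg - π / 2)
    have c3 := neg_one_le_cos (th θ α i' j' - w.arg - π / 2)
    have c4 := cos_le_one (th θ α i' j' - w.arg - π / 2)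
    rw [lt_div_iff₀ hρ0, div_lt_iff₀ hρ0]
    rcases mul_neg_iff.mp h1 with ⟨x1, x2⟩ | ⟨x1, x2⟩ <;> constructor <;> nlinarith
  set β := arccos (κ / ρ) with hβ
  have hβ0 : 0 < β := arccos_pos.mpr hk.2
  have hβ1 : β < π := arccos_lt_pi.mpr hk.1
  have hcos : cos β = κ / ρ := cos_arccos hk.1.le hk.2.le
  let col : ℤ × ℤ → Prop := fun v => 0 < ρ * cos (th θ α v.1 v.2 - w.arg - π / 2) - κ
  have hcol : ∀ n, (par n = 0 ∨ par n = 1) →
      (col (proj n) ↔ cos β < cos (θ - w.arg - π / 2 + tm α n)) := by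
    intro n hp
    simp only [col]
    rw [th_proj θ α hP n hp, hcos, div_lt_iff₀ hρ0]
    have : θ + tm α n + ((-n 2 : ℤ) : ℝ) * (2 * π) - w.arg - π / 2 =
        (θ - w.arg - π / 2 + tm α n) + ((-n 2 : ℤ) : ℝ) * (2 * π) := by ring
    rw [this, cos_add_int_mul_two_pi]
    constructor <;> intro h <;> linarith
  let U : Set (ℤ × ℤ) := {v | q.pos v.1 v.2 ∉ Γ ∧
    Bornology.IsBounded (connectedComponentIn Γᶜ (q.pos v.1 v.2))}
  have hUf : U.Finite := by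
    obtain ⟨R, hR⟩ : ∃ R : ℝ, ∀ n, ‖p n‖ ≤ R := by
      refine ⟨∑ i ∈ Finset.range N, ‖p i‖, fun n => ?_⟩
      have : p n = p (n % N) := by
        have hf : Function.Periodic p N := hper
        exact (hf.map_mod_nat n).symm
      rw [this]
      exact Finset.single_le_sum (f := fun i => ‖p i‖) (fun _ _ => norm_nonneg _)
        (Finset.mem_range.mpr (Nat.mod_lt _ hN))
    have hR0 : 0 ≤ R := le_trans (norm_nonneg _) (hR 0)
    have hΓR : ∀ z ∈ Γ, ‖z‖ ≤ R := by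
      intro z hz
      obtain ⟨n, hn⟩ := Set.mem_iUnion.mp hz
      have := (convex_closedBall (0 : ℂ) R).segment_subset (x := p n) (y := p (n + 1))
        (by simpa using hR n) (by simpa using hR (n + 1)) hn
      simpa using this
    apply (q.finite_pos R).subset
    intro v hv
    by_contra hn
    have hn' : R < ‖q.pos v.1 v.2‖ := not_le.mp hn
    set z := q.pos v.1 v.2
    have hz0 : 0 < ‖z‖ := lt_of_le_of_lt hR0 hn'
    have hpre : IsPreconnected ((fun s : ℝ => (s : ℂ) * z) '' Set.Ici 1) :=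
      isPreconnected_Ici.image _ (by fun_prop)
    have hsub := hpre.subset_connectedComponentIn (x := z) (F := Γᶜ) ⟨1, le_refl (1 : ℝ), by simp⟩ (by
      rintro _ ⟨s, hs, rfl⟩ hz
      have h1 := hΓR _ hz
      have hs' : (1 : ℝ) ≤ s := hs
      rw [norm_mul, Complex.norm_real, Real.norm_eq_abs, abs_of_pos (by linarith)] at h1
      nlinarith)
    obtain ⟨M, hM⟩ := (hv.2.subset hsub).exists_norm_le
    have hM0 : ‖z‖ ≤ M := hM z ⟨1, le_refl (1 : ℝ), by simp⟩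
    have := hM _ ⟨M / ‖z‖ + 1, (by
      show (1 : ℝ) ≤ M / ‖z‖ + 1
      have : 0 ≤ M / ‖z‖ := div_nonneg (by linarith) hz0.le
      linarith), rfl⟩
    simp only at this
    rw [norm_mul, Complex.norm_real, Real.norm_eq_abs,
      abs_of_pos (by have : 0 ≤ M / ‖z‖ := div_nonneg (by linarith) hz0.le; linarith),
      add_mul, div_mul_cancel₀ _ hz0.ne'] at this
    linarith
  have hUseg : ∀ v v' : ℤ × ℤ, segment ℝ (q.pos v.1 v.2) (q.pos v'.1 v'.2) ⊆ Γᶜ →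
      (v ∈ U ↔ v' ∈ U) := by
    intro v v' h
    have h1 := (convex_segment _ _).isPreconnected.subset_connectedComponentIn
      (left_mem_segment _ _ _) h (right_mem_segment ℝ _ _)
    have h2 := connectedComponentIn_eq h1
    simp only [U, Set.mem_ofPred_eq]
    rw [h2]
    exact ⟨fun h' => ⟨h (right_mem_segment _ _ _), h'.2⟩, fun h' => ⟨h (left_mem_segment _ _ _), h'.2⟩⟩
  have hΓmem : ∀ z ∈ Γ, (∃ m, z = p (m + 1)) ∨ ∃ i j, z ∈ interior (q.tile i j) := by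
    intro z hz
    obtain ⟨n, hn⟩ := Set.mem_iUnion.mp hz
    rw [← insert_endpoints_openSegment] at hn
    rcases hn with rfl | rfl | hn
    · obtain ⟨m, hm⟩ := hprev n
      exact Or.inl ⟨m, hm.symm⟩
    · exact Or.inl ⟨n, rfl⟩
    · obtain ⟨i, j, h⟩ := hseg n
      exact Or.inr ⟨i, j, h hn⟩
  have hbi : ∀ x y : ℝ, x * y < 0 → ¬ (0 < x ↔ 0 < y) := by
    intro x y h h'
    rcases mul_neg_iff.mp h with ⟨x1, x2⟩ | ⟨x1, x2⟩
    · linarith [h'.mp x1]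
    · linarith [h'.mpr x2]
  have h2H : ∀ i j, (∃ n, p (n + 1) ∈ openSegment ℝ (q.pos i j) (q.pos (i + 1) j)) →
      ¬ (col (i, j) ↔ col (i + 1, j)) ∧
      (∃ n, openSegment ℝ (p n) (p (n + 1)) ⊆ interior (q.tile i j)) ∧
      (∃ n, openSegment ℝ (p n) (p (n + 1)) ⊆ interior (q.tile i (j - 1))) := by
    rintro i j ⟨n, hn⟩
    obtain ⟨a1, a2, a3⟩ := hE n i j (i + 1) j (Or.inl ⟨rfl, rfl⟩) hn
    refine ⟨hbi _ _ a1, a2, ?_⟩
    simpa using a3
  have h2V : ∀ i j, (∃ n, p (n + 1) ∈ openSegment ℝ (q.pos i j) (q.pos i (j + 1))) →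
      ¬ (col (i, j) ↔ col (i, j + 1)) ∧
      (∃ n, openSegment ℝ (p n) (p (n + 1)) ⊆ interior (q.tile i j)) ∧
      (∃ n, openSegment ℝ (p n) (p (n + 1)) ⊆ interior (q.tile (i - 1) j)) := by
    rintro i j ⟨n, hn⟩
    obtain ⟨a1, a2, a3⟩ := hE n i j i (j + 1) (Or.inr ⟨rfl, rfl⟩) hn
    refine ⟨hbi _ _ a1, a2, ?_⟩
    simpa using a3
  refine grid_final α hα (2 * π) hP (θ - w.arg - π / 2) (Set.Ioo (-β) β) (Set.Icc β (2 * π - β))
    Set.ordConnected_Ioo Set.ordConnected_Icc (fun x hx y hy => by linarith [hx.1, hy.2])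
    (fun x hx y hy => by linarith [hx.1, hy.2]) col
    (fun n hp => (hcol n hp).trans (win β hβ0 hβ1 _).1)
    (fun n hp => (not_congr (hcol n hp)).trans (win β hβ0 hβ1 _).2) U hUf
    (fun i j => ∃ n, openSegment ℝ (p n) (p (n + 1)) ⊆ interior (q.tile i j))
    (fun i j => ∃ n, p (n + 1) ∈ openSegment ℝ (q.pos i j) (q.pos (i + 1) j))
    (fun i j => ∃ n, p (n + 1) ∈ openSegment ℝ (q.pos i j) (q.pos i (j + 1)))
    ?_ ?_ h2H h2V ?_ a b ?_ (hsub (q.corner a b).1)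
  · intro i j hn
    apply hUseg (i, j) (i + 1, j)
    intro z hz hzΓ
    have o := q.cH hz
    rcases hΓmem z hzΓ with ⟨m, rfl⟩ | ⟨i', j', h⟩
    · obtain ⟨i1, j1, i2, j2, ha, hz', _⟩ := hedge m
      rcases ha with ⟨rfl, rfl⟩ | ⟨rfl, rfl⟩
      · have o' := q.oH hz'
        have e1 := int1 o'.1.1 o'.1.2 o.1.1 o.1.2
        have e2 : j2 = j := by
          have := o'.2.symm.trans o.2
          exact_mod_cast this
        subst e1 e2
        exact hn ⟨m, hz'⟩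
      · have o' := q.oV hz'
        rw [o.2] at o'
        exact int2 o'.2.1 o'.2.2
    · have t := q.tile_int _ _ _ h
      rw [o.2] at t
      exact int2 t.2.1 t.2.2
  · intro i j hn
    apply hUseg (i, j) (i, j + 1)
    intro z hz hzΓ
    have o := q.cV hz
    rcases hΓmem z hzΓ with ⟨m, rfl⟩ | ⟨i', j', h⟩
    · obtain ⟨i1, j1, i2, j2, ha, hz', _⟩ := hedge m
      rcases ha with ⟨rfl, rfl⟩ | ⟨rfl, rfl⟩
      · have o' := q.oH hz'
        rw [o.1] at o'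
        exact int2 o'.1.1 o'.1.2
      · have o' := q.oV hz'
        have e1 := int1 o'.2.1 o'.2.2 o.2.1 o.2.2
        have e2 : i2 = i := by
          have := o'.1.symm.trans o.1
          exact_mod_cast this
        subst e1 e2
        exact hn ⟨m, hz'⟩
    · have t := q.tile_int _ _ _ h
      rw [o.1] at t
      exact int2 t.1.1 t.1.2
  · rintro i j ⟨n, hn⟩
    obtain ⟨s, t, s0, s1, t0, t1, hd⟩ := hdiag i j
    apply four (col (i, j)) (col (i + 1, j)) (col (i + 1, j + 1)) (col (i, j + 1))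
    · rintro ⟨x1, x2, x3, x4⟩
      simp only [col, not_lt] at x1 x2 x3 x4
      nlinarith [mul_pos (sub_pos.mpr s1) x1, mul_pos s0 x3, mul_nonneg (sub_pos.mpr t1).le (neg_nonneg.mpr x2),
        mul_nonneg t0.le (neg_nonneg.mpr x4)]
    · rintro ⟨x1, x2, x3, x4⟩
      simp only [col, not_lt] at x1 x2 x3 x4
      nlinarith [mul_pos (sub_pos.mpr t1) x2, mul_pos t0 x4, mul_nonneg (sub_pos.mpr s1).le (neg_nonneg.mpr x1),
        mul_nonneg s0.le (neg_nonneg.mpr x3)]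
    · exact fun h => (h2H _ _ h).1
    · exact fun h => (h2H _ _ h).1
    · exact fun h => (h2V _ _ h).1
    · exact fun h => (h2V _ _ h).1
    · obtain ⟨m, hm⟩ := hprev n
      obtain ⟨i1, j1, i2, j2, ha, hz, _⟩ := hedge m
      obtain ⟨i3, j3, i4, j4, hb, hz', _⟩ := hedge n
      have t := q.ends_mem hn
      have hsame : ¬ (i1 = i3 ∧ j1 = j3 ∧ i2 = i4 ∧ j2 = j4) := by
        rintro ⟨rfl, rfl, rfl, rfl⟩
        rw [hm] at hz
        exact q.edge_not_int ha ((convex_openSegment _ _) hz hz' (a := 1 / 2) (b := 1 / 2)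
          (by norm_num) (by norm_num) (by norm_num)) i j (hn (mid_mem _ _))
      have f1 := q.edge_face ha hz (hm ▸ t.1)
      have f2 := q.edge_face hb hz' t.2
      rcases f1 with ⟨rfl, rfl, rfl, rfl⟩ | ⟨rfl, rfl, rfl, rfl⟩ | ⟨rfl, rfl, rfl, rfl⟩ |
        ⟨rfl, rfl, rfl, rfl⟩ <;>
      rcases f2 with ⟨rfl, rfl, rfl, rfl⟩ | ⟨rfl, rfl, rfl, rfl⟩ | ⟨rfl, rfl, rfl, rfl⟩ |
        ⟨rfl, rfl, rfl, rfl⟩ <;>
      first
        | exact absurd ⟨rfl, rfl, rfl, rfl⟩ hsame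
        | exact Or.inl ⟨⟨_, hz⟩, ⟨_, hz'⟩⟩
        | exact Or.inl ⟨⟨_, hz'⟩, ⟨_, hz⟩⟩
        | exact Or.inr (Or.inl ⟨⟨_, hz⟩, ⟨_, hz'⟩⟩)
        | exact Or.inr (Or.inl ⟨⟨_, hz'⟩, ⟨_, hz⟩⟩)
        | exact Or.inr (Or.inr (Or.inl ⟨⟨_, hz⟩, ⟨_, hz'⟩⟩))
        | exact Or.inr (Or.inr (Or.inl ⟨⟨_, hz'⟩, ⟨_, hz⟩⟩))
        | exact Or.inr (Or.inr (Or.inr (Or.inl ⟨⟨_, hz⟩, ⟨_, hz'⟩⟩)))
        | exact Or.inr (Or.inr (Or.inr (Or.inl ⟨⟨_, hz'⟩, ⟨_, hz⟩⟩)))
        | exact Or.inr (Or.inr (Or.inr (Or.inr (Or.inl ⟨⟨_, hz⟩, ⟨_, hz'⟩⟩))))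
        | exact Or.inr (Or.inr (Or.inr (Or.inr (Or.inl ⟨⟨_, hz'⟩, ⟨_, hz⟩⟩))))
        | exact Or.inr (Or.inr (Or.inr (Or.inr (Or.inr ⟨⟨_, hz⟩, ⟨_, hz'⟩⟩))))
        | exact Or.inr (Or.inr (Or.inr (Or.inr (Or.inr ⟨⟨_, hz'⟩, ⟨_, hz⟩⟩))))
  · rintro ⟨n, hn⟩
    exact (hsub (interior_subset (hn (mid_mem _ _)))).1
      (Set.mem_iUnion.mpr ⟨n, openSegment_subset_segment _ _ _ (mid_mem _ _)⟩)

end Qd

end Pool.Agent.H256Z.TB
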